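import Pool.Agent.Helper76.FT.GoalsC

set_option autoImplicit false

namespace Pool.Agent.Helper37.FT

open Set Filter Topology
open Pool.Agent.Helper76.FT

/-- chain rule for iterates -/
theorem hasDerivAt_iter' {g g' : ℝ → ℝ} (hg : ∀ x, HasDerivAt g (g' x) x) (n : ℕ) (x : ℝ) :
    HasDerivAt (g^[n]) (∏ i ∈ Finset.range n, g' (g^[i] x)) x := by
  induction n with
  | zero => simpa using hasDerivAt_id x
  | succ n ih =>
    rw [Function.iterate_succ', Finset.prod_range_succ, mul_comm]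
    exact (hg (g^[n] x)).comp x ih

/-- the velocities of a leaf of periodic points are continuously differentiable in the position -/
theorem leafV (S : Sys) (hS : S.Ok) (hReg : GReg) {Y : ℝ} (hY : Y ∈ Icc S.a S.b) {N : ℕ} {m : ℤ}
    (per : ∀ x : ℝ, (S.g Y)^[N + 1] x = x + m)
    (an : AnalyticOnNhd ℝ (fun x : ℝ => S.V Y x 0) univ) :
    ∃ vq : ℝ → ℝ → ℝ, ContinuousOn (fun z : ℝ × ℝ => vq z.1 z.2) (univ ×ˢ Icc (0:ℝ) 1) ∧
      ∀ q : ℝ, ∀ s ∈ Icc (0:ℝ) 1, HasDerivAt (fun q' => S.V Y q' s) (vq q s) q := by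
  obtain ⟨-, -, -, -, -, -, -, -, -, hleaf, -⟩ := hReg S hS
  obtain ⟨hmono, -⟩ := hleaf Y hY
  set v0 : ℝ → ℝ := fun x => S.V Y x 0 with hv0
  have hd : ∀ x, HasDerivAt v0 (deriv v0 x) x := fun x =>
    (an x (mem_univ x)).differentiableAt.hasDerivAt
  have hdc : Continuous (deriv v0) := by
    have := an.deriv
    exact continuous_iff_continuousAt.2 fun x => (this x (mem_univ x)).continuousAt
  have hg : ∀ x, HasDerivAt (S.g Y) (1 + deriv v0 x) x := fun x => (hasDerivAt_id x).add (hd x)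
  have hgpos : ∀ x, 0 < 1 + deriv v0 x := by
    intro x
    have h1 : 0 ≤ 1 + deriv v0 x := by
      rw [← (hg x).deriv]; exact hmono.monotone.deriv_nonneg
    refine lt_of_le_of_ne h1 fun h0 => ?_
    have h2 := hasDerivAt_iter' hg (N + 1) x
    have e : (S.g Y)^[N + 1] = fun x : ℝ => x + (m : ℝ) := funext per
    rw [e] at h2
    have h3 : HasDerivAt (fun x : ℝ => x + (m : ℝ)) 1 x := (hasDerivAt_id x).add_const (m : ℝ)
    have h4 := h2.unique h3
    rw [Finset.prod_range_succ'] at h4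
    simp only [Function.iterate_zero, id_eq] at h4
    rw [← h0, mul_zero] at h4
    exact zero_ne_one h4
  have hpos : ∀ x, ∀ s ∈ Icc (0:ℝ) 1, 0 < 1 + s * deriv v0 x := by
    intro x s hs
    have h1 := hgpos x
    have e : 1 + s * deriv v0 x = (1 - s) + s * (1 + deriv v0 x) := by ring
    rw [e]
    rcases eq_or_lt_of_le hs.1 with h0 | h0
    · rw [← h0]; norm_num
    · have := mul_pos h0 h1
      linarith [hs.2]
  -- starting points
  have hXv : ∀ q : ℝ, ∀ s ∈ Icc (0:ℝ) 1, S.V Y q s = v0 (q - s * S.V Y q s) := by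
    intro q s hs
    have h1 := hS.Vline Y hY q 0 ⟨le_rfl, zero_le_one⟩ s hs
    have e : q + (0 - s) * S.V Y q s = q - s * S.V Y q s := by ring
    rw [e] at h1
    exact h1.symm
  have hVc : ContinuousOn (fun z : ℝ × ℝ => S.V Y z.1 z.2) (univ ×ˢ Icc (0:ℝ) 1) := by
    have h1 := hS.Vcont
    exact h1.comp (f := fun z : ℝ × ℝ => ((Y, z.1, z.2) : ℝ × ℝ × ℝ)) (by fun_prop)
      fun z hz => ⟨hY, mem_univ _, hz.2⟩
  have hXc : ContinuousOn (fun z : ℝ × ℝ => z.1 - z.2 * S.V Y z.1 z.2) (univ ×ˢ Icc (0:ℝ) 1) :=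
    continuousOn_fst.sub (continuousOn_snd.mul hVc)
  refine ⟨fun q s => deriv v0 (q - s * S.V Y q s) / (1 + s * deriv v0 (q - s * S.V Y q s)), ?_, ?_⟩
  · have h1 : ContinuousOn (fun z : ℝ × ℝ => deriv v0 (z.1 - z.2 * S.V Y z.1 z.2))
        (univ ×ˢ Icc (0:ℝ) 1) := hdc.comp_continuousOn hXc
    refine h1.div (continuousOn_const.add (continuousOn_snd.mul h1)) fun z hz => ?_
    exact (hpos _ z.2 hz.2).ne'
  · intro q s hs
    have hp := hpos (q - s * S.V Y q s) s hs
    have hc : Continuous fun q' : ℝ => q' - s * S.V Y q' s := by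
      exact hXc.comp_continuous (f := fun q' : ℝ => (q', s)) (by fun_prop)
        fun q' => ⟨mem_univ _, hs⟩
    have h1 : HasDerivAt (fun x => x + s * v0 x) (1 + s * deriv v0 (q - s * S.V Y q s))
        (q - s * S.V Y q s) := (hasDerivAt_id _).add ((hd _).const_mul s)
    have h2 : HasDerivAt (fun q' : ℝ => q' - s * S.V Y q' s)
        (1 + s * deriv v0 (q - s * S.V Y q s))⁻¹ q := by
      refine HasDerivAt.of_local_left_inverse (f := fun x => x + s * v0 x) hc.continuousAt h1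
        hp.ne' (Eventually.of_forall fun q' => ?_)
      show q' - s * S.V Y q' s + s * v0 (q' - s * S.V Y q' s) = q'
      rw [← hXv q' s hs]; ring
    have h3 := (hd (q - s * S.V Y q s)).comp q h2
    show HasDerivAt (fun q' => S.V Y q' s)
      (deriv v0 (q - s * S.V Y q s) * (1 + s * deriv v0 (q - s * S.V Y q s))⁻¹) q
    refine h3.congr_of_eventuallyEq (Eventually.of_forall fun q' => ?_)
    exact hXv q' s hs

end Pool.Agent.Helper37.FT
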