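import Pool.Agent.Helper10.FT.LeafDef
import Pool.Agent.Helper37.FT.LeafV

set_option autoImplicit false

namespace Pool.Agent.Helper37.FT

open Pool.Agent.Helper76.FT

theorem ft_leafV (hReg : GReg) : Pool.Agent.Helper10.FT.GLeafV :=
  fun S hS _ hY _ _ per an => leafV S hS hReg hY per an

end Pool.Agent.Helper37.FT
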