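import Pool.Agent.Helper76.FT.GoalsG

set_option autoImplicit false

namespace Pool.Agent.Helper37.FT

open Complex Set Filter Topology
open Pool.Agent.Helper76.FT

theorem isOpen_Str (ρ : ℝ) : IsOpen (Str ρ) :=
  isOpen_lt (continuous_abs.comp Complex.continuous_im) continuous_const

theorem real_mem_Str {ρ : ℝ} (hρ : 0 < ρ) (x : ℝ) : (x : ℂ) ∈ Str ρ := by
  show |((x : ℂ)).im| < ρ
  simpa using hρ

variable {S : Sys} {δ ρ : ℝ} {w : ℂ → ℝ → ℂ} {c : ℂ}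

theorem chi_self (w : ℂ → ℝ → ℂ) (z : ℝ × ℝ) : chi w z z = 0 := by
  simp [chi]

/-- `wt` is bounded near any point -/
theorem wt_bdd (hT : Tor S δ w ρ c) (z₁ : ℝ × ℝ) : ∃ M : ℝ, ∀ᶠ z in 𝓝 z₁, ‖wt w z‖ ≤ M := by
  set K : Set (ℂ × ℝ) := ((fun x : ℝ => (x : ℂ)) '' Icc (z₁.1 - 1) (z₁.1 + 1)) ×ˢ Icc (0:ℝ) 1
  have hK : IsCompact K := (isCompact_Icc.image Complex.continuous_ofReal).prod isCompact_Icc
  have hsub : K ⊆ Str ρ ×ˢ Icc (0:ℝ) 1 := by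
    rintro ⟨z, t⟩ ⟨⟨x, -, hx⟩, ht⟩
    refine ⟨?_, ht⟩
    simp only at hx
    show z ∈ Str ρ
    rw [← hx]; exact real_mem_Str hT.hρ x
  obtain ⟨M, hM⟩ := hK.exists_bound_of_continuousOn (hT.sh.cont.mono hsub)
  refine ⟨M, ?_⟩
  have h1 : ∀ᶠ z : ℝ × ℝ in 𝓝 z₁, z.1 ∈ Icc (z₁.1 - 1) (z₁.1 + 1) :=
    continuous_fst.continuousAt.eventually (Icc_mem_nhds (by linarith) (by linarith))
  filter_upwards [h1] with z hz
  exact hM (z.1, Int.fract z.2) ⟨mem_image_of_mem _ hz, ⟨Int.fract_nonneg _,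
    (Int.fract_lt_one _).le⟩⟩

theorem tendsto_chi (hT : Tor S δ w ρ c) (z₁ : ℝ × ℝ) : Tendsto (chi w z₁) (𝓝 z₁) (𝓝 0) := by
  obtain ⟨M, hM⟩ := wt_bdd hT z₁
  have h1 : Tendsto (fun z : ℝ × ℝ => ((z.1 - z₁.1 : ℝ) : ℂ)) (𝓝 z₁) (𝓝 0) := by
    have : Continuous (fun z : ℝ × ℝ => ((z.1 - z₁.1 : ℝ) : ℂ)) := by fun_prop
    have := this.tendsto z₁
    simpa using this
  have h2 : Tendsto (fun z : ℝ × ℝ => ((z₁.2 - z.2 : ℝ) : ℂ)) (𝓝 z₁) (𝓝 0) := by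
    have : Continuous (fun z : ℝ × ℝ => ((z₁.2 - z.2 : ℝ) : ℂ)) := by fun_prop
    have := this.tendsto z₁
    simpa using this
  have h3 : Tendsto (fun z : ℝ × ℝ => ((z₁.2 - z.2 : ℝ) : ℂ) * wt w z) (𝓝 z₁) (𝓝 0) := by
    rw [tendsto_zero_iff_norm_tendsto_zero] at h2 ⊢
    have h4 : Tendsto (fun z : ℝ × ℝ => ‖((z₁.2 - z.2 : ℝ) : ℂ)‖ * M) (𝓝 z₁) (𝓝 0) := by
      simpa using h2.mul_const M
    refine squeeze_zero' (Eventually.of_forall fun _ => norm_nonneg _) ?_ h4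
    filter_upwards [hM] with z hz
    rw [norm_mul]
    exact mul_le_mul_of_nonneg_left hz (norm_nonneg _)
  have h5 := h1.add h3
  rw [add_zero] at h5
  exact h5

theorem eventually_mem (hT : Tor S δ w ρ c) (z₁ : ℝ × ℝ) :
    ∀ᶠ z in 𝓝 z₁, (z₁.1 : ℂ) + chi w z₁ z ∈ Str ρ := by
  have h1 : Tendsto (fun z => (z₁.1 : ℂ) + chi w z₁ z) (𝓝 z₁) (𝓝 (z₁.1 : ℂ)) := by
    simpa using (tendsto_chi hT z₁).const_add (z₁.1 : ℂ)
  exact h1.eventually ((isOpen_Str ρ).mem_nhds (real_mem_Str hT.hρ z₁.1))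

/-- the velocity in the chart, at a time `σ` of the same layer -/
theorem wt_eq (hT : Tor S δ w ρ c) {z₁ z : ℝ × ℝ} {σ : ℝ} (hσ : σ ∈ Icc (0:ℝ) 1)
    (hm : (z₁.1 : ℂ) + chi w z₁ z ∈ Str ρ) (he : σ - Int.fract z.2 = z₁.2 - z.2) :
    wt w z = w ((z₁.1 : ℂ) + chi w z₁ z) σ := by
  have e : (z₁.1 : ℂ) + chi w z₁ z = (z.1 : ℂ) + ((σ - Int.fract z.2 : ℝ) : ℂ) *
      w (z.1 : ℂ) (Int.fract z.2) := by
    rw [he]; simp only [chi, wt]; push_cast; ring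
  have h1 := hT.line (z.1 : ℂ) (real_mem_Str hT.hρ _) σ hσ (Int.fract z.2)
    ⟨Int.fract_nonneg _, (Int.fract_lt_one _).le⟩
  rw [e] at hm ⊢
  push_cast at hm ⊢
  exact (h1 hm).symm

theorem fract_near {a : ℝ} (ha : ∀ n : ℤ, a ≠ n) :
    ∀ᶠ t in 𝓝 a, Int.fract t - Int.fract a = t - a := by
  have h1 : (⌊a⌋ : ℝ) < a := lt_of_le_of_ne (Int.floor_le a) (fun h => ha _ h.symm)
  have h2 : a < ⌊a⌋ + 1 := Int.lt_floor_add_one a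
  filter_upwards [Ioo_mem_nhds h1 h2] with t ht
  have h3 : ⌊t⌋ = ⌊a⌋ := Int.floor_eq_iff.2 ⟨ht.1.le, ht.2⟩
  simp only [Int.fract, h3]; ring

theorem fract_near_right (n : ℤ) : ∀ᶠ t in 𝓝 (n : ℝ), (n : ℝ) ≤ t → Int.fract t = t - n := by
  filter_upwards [Iio_mem_nhds (show (n : ℝ) < n + 1 by linarith)] with t ht hn
  have h3 : ⌊t⌋ = n := Int.floor_eq_iff.2 ⟨hn, ht⟩
  simp only [Int.fract, h3]

theorem fract_near_left (n : ℤ) : ∀ᶠ t in 𝓝 (n : ℝ), t < (n : ℝ) → Int.fract t = 1 + (t - n) := by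
  filter_upwards [Ioi_mem_nhds (show (n : ℝ) - 1 < n by linarith)] with t ht hn
  have h3 : ⌊t⌋ = n - 1 := Int.floor_eq_iff.2 ⟨by push_cast; exact le_of_lt ht, by push_cast; linarith⟩
  simp only [Int.fract, h3]; push_cast; ring

/-- time of the point with chart coordinate `ζ` -/
noncomputable def tauS (w : ℂ → ℝ → ℂ) (z₁ : ℝ × ℝ) (σ : ℝ) (ζ : ℂ) : ℝ :=
  z₁.2 - ζ.im / (w ((z₁.1 : ℂ) + ζ) σ).im

/-- the point with chart coordinate `ζ` -/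
noncomputable def psiS (w : ℂ → ℝ → ℂ) (z₁ : ℝ × ℝ) (σ : ℝ) (ζ : ℂ) : ℝ × ℝ :=
  (((z₁.1 : ℂ) + ζ + ((tauS w z₁ σ ζ - z₁.2 : ℝ) : ℂ) * w ((z₁.1 : ℂ) + ζ) σ).re, tauS w z₁ σ ζ)

theorem tendsto_W (hT : Tor S δ w ρ c) (z₁ : ℝ × ℝ) {σ : ℝ} (hσ : σ ∈ Icc (0:ℝ) 1) :
    Tendsto (fun ζ : ℂ => w ((z₁.1 : ℂ) + ζ) σ) (𝓝 0) (𝓝 (w (z₁.1 : ℂ) σ)) := by
  have h1 : ContinuousAt (fun z => w z σ) (z₁.1 : ℂ) :=
    ((hT.sh.hol σ hσ).differentiableAt ((isOpen_Str ρ).mem_nhds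
      (real_mem_Str hT.hρ z₁.1))).continuousAt
  have h2 : Tendsto (fun ζ : ℂ => (z₁.1 : ℂ) + ζ) (𝓝 0) (𝓝 (z₁.1 : ℂ)) := by
    simpa using (continuous_const.add continuous_id).tendsto (x := (0 : ℂ))
      (f := fun ζ : ℂ => (z₁.1 : ℂ) + ζ)
  exact h1.tendsto.comp h2

theorem tendsto_tau (hT : Tor S δ w ρ c) (z₁ : ℝ × ℝ) {σ : ℝ} (hσ : σ ∈ Icc (0:ℝ) 1) :
    Tendsto (tauS w z₁ σ) (𝓝 0) (𝓝 z₁.2) := by
  have h0 := (hT.pos z₁.1 σ hσ).1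
  have h1 : Tendsto (fun ζ : ℂ => ζ.im / (w ((z₁.1 : ℂ) + ζ) σ).im) (𝓝 0)
      (𝓝 (0 / (w (z₁.1 : ℂ) σ).im)) := by
    refine Tendsto.div ?_ ((Complex.continuous_im.tendsto _).comp (tendsto_W hT z₁ hσ)) h0.ne'
    simpa using Complex.continuous_im.tendsto (0 : ℂ)
  have h2 := h1.const_sub z₁.2
  rw [zero_div, sub_zero] at h2
  exact h2

theorem tendsto_psi (hT : Tor S δ w ρ c) (z₁ : ℝ × ℝ) {σ : ℝ} (hσ : σ ∈ Icc (0:ℝ) 1) :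
    Tendsto (psiS w z₁ σ) (𝓝 0) (𝓝 z₁) := by
  have h1 := tendsto_tau hT z₁ hσ
  have h2 := tendsto_W hT z₁ hσ
  have h3 : Tendsto (fun ζ : ℂ => (z₁.1 : ℂ) + ζ + ((tauS w z₁ σ ζ - z₁.2 : ℝ) : ℂ) *
      w ((z₁.1 : ℂ) + ζ) σ) (𝓝 0) (𝓝 ((z₁.1 : ℂ) + 0 + ((z₁.2 - z₁.2 : ℝ) : ℂ) *
      w (z₁.1 : ℂ) σ)) := by
    refine ((tendsto_const_nhds.add tendsto_id)).add (Tendsto.mul ?_ h2)
    exact (Complex.continuous_ofReal.tendsto _).comp (h1.sub_const z₁.2)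
  have h4 : Tendsto (fun ζ => (psiS w z₁ σ ζ).1) (𝓝 0) (𝓝 z₁.1) := by
    have h5 := (Complex.continuous_re.tendsto _).comp h3
    have e5 : ((z₁.1 : ℂ) + 0 + ((z₁.2 - z₁.2 : ℝ) : ℂ) * w (z₁.1 : ℂ) σ).re = z₁.1 := by simp
    rw [e5] at h5
    exact h5
  exact h4.prodMk_nhds h1

/-- the point with coordinate `ζ` has coordinate `ζ` -/
theorem chi_psi (hT : Tor S δ w ρ c) (z₁ : ℝ × ℝ) {σ : ℝ} (hσ : σ ∈ Icc (0:ℝ) 1) :
    ∀ᶠ ζ in 𝓝 (0 : ℂ), Int.fract (tauS w z₁ σ ζ) - σ = tauS w z₁ σ ζ - z₁.2 →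
      chi w z₁ (psiS w z₁ σ ζ) = ζ := by
  have h1 : ∀ᶠ ζ in 𝓝 (0 : ℂ), (z₁.1 : ℂ) + ζ ∈ Str ρ := by
    have h2 : Tendsto (fun ζ : ℂ => (z₁.1 : ℂ) + ζ) (𝓝 0) (𝓝 (z₁.1 : ℂ)) := by
      simpa using (continuous_const.add continuous_id).tendsto (x := (0 : ℂ))
        (f := fun ζ : ℂ => (z₁.1 : ℂ) + ζ)
    exact h2.eventually ((isOpen_Str ρ).mem_nhds (real_mem_Str hT.hρ z₁.1))
  have h2 : ∀ᶠ ζ in 𝓝 (0 : ℂ), 0 < (w ((z₁.1 : ℂ) + ζ) σ).im :=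
    ((Complex.continuous_im.tendsto _).comp (tendsto_W hT z₁ hσ)).eventually
      (lt_mem_nhds (hT.pos z₁.1 σ hσ).1)
  filter_upwards [h1, h2] with ζ hζ hpos hfr
  set W := w ((z₁.1 : ℂ) + ζ) σ with hW
  set τ := tauS w z₁ σ ζ with hτ
  have hre : (((psiS w z₁ σ ζ).1 : ℝ) : ℂ) = (z₁.1 : ℂ) + ζ + ((τ - z₁.2 : ℝ) : ℂ) * W := by
    apply Complex.ext
    · rw [Complex.ofReal_re]; rfl
    · rw [Complex.ofReal_im]
      have : τ - z₁.2 = -(ζ.im / W.im) := by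
        rw [hτ, tauS]; ring
      rw [this]
      simp only [Complex.add_im, Complex.ofReal_im, Complex.mul_im, Complex.ofReal_re, zero_mul,
        add_zero, zero_add]
      field_simp
      ring
  have hline := hT.line ((z₁.1 : ℂ) + ζ) hζ (Int.fract τ)
    ⟨Int.fract_nonneg _, (Int.fract_lt_one _).le⟩ σ hσ
  have e1 : (z₁.1 : ℂ) + ζ + ((Int.fract τ : ℝ) - (σ : ℝ) : ℂ) * W = ((psiS w z₁ σ ζ).1 : ℂ) := by
    rw [hre, ← hfr]; push_cast; ring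
  have hline' := hline (by rw [e1]; exact real_mem_Str hT.hρ _)
  rw [e1] at hline'
  have hwt : wt w (psiS w z₁ σ ζ) = W := hline'
  have e2 : (psiS w z₁ σ ζ).2 = τ := rfl
  simp only [chi, hwt, e2]
  push_cast
  rw [hre]
  push_cast; ring

theorem map_chi (hT : Tor S δ w ρ c) (z₁ : ℝ × ℝ) : Filter.map (chi w z₁) (𝓝 z₁) = 𝓝 0 := by
  refine le_antisymm (tendsto_chi hT z₁) ?_
  -- a right inverse
  suffices h : ∃ ψ : ℂ → ℝ × ℝ, Tendsto ψ (𝓝 0) (𝓝 z₁) ∧ ∀ᶠ ζ in 𝓝 (0 : ℂ), chi w z₁ (ψ ζ) = ζ by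
    obtain ⟨ψ, h1, h2⟩ := h
    calc 𝓝 (0 : ℂ) = Filter.map id (𝓝 0) := Filter.map_id.symm
      _ = Filter.map (fun ζ => chi w z₁ (ψ ζ)) (𝓝 0) :=
          Filter.map_congr (h2.mono fun ζ hζ => by simp [hζ])
      _ = Filter.map (chi w z₁) (Filter.map ψ (𝓝 0)) := by rw [Filter.map_map]; rfl
      _ ≤ Filter.map (chi w z₁) (𝓝 z₁) := Filter.map_mono h1
  by_cases hint : ∀ n : ℤ, z₁.2 ≠ n
  · have hσ : Int.fract z₁.2 ∈ Icc (0:ℝ) 1 := ⟨Int.fract_nonneg _, (Int.fract_lt_one _).le⟩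
    refine ⟨psiS w z₁ (Int.fract z₁.2), tendsto_psi hT z₁ hσ, ?_⟩
    filter_upwards [chi_psi hT z₁ hσ, (tendsto_tau hT z₁ hσ).eventually (fract_near hint)]
      with ζ h1 h2
    exact h1 h2
  · push Not at hint
    obtain ⟨n, hn⟩ := hint
    have h0 : (0:ℝ) ∈ Icc (0:ℝ) 1 := ⟨le_rfl, zero_le_one⟩
    have h1 : (1:ℝ) ∈ Icc (0:ℝ) 1 := ⟨zero_le_one, le_rfl⟩
    classical
    refine ⟨fun ζ => if 0 < ζ.im then psiS w z₁ 1 ζ else psiS w z₁ 0 ζ,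
      (tendsto_psi hT z₁ h1).if' (tendsto_psi hT z₁ h0), ?_⟩
    have t1 := tendsto_tau hT z₁ h1
    have t0 := tendsto_tau hT z₁ h0
    have hp : ∀ σ ∈ Icc (0:ℝ) 1, ∀ᶠ ζ in 𝓝 (0 : ℂ), 0 < (w ((z₁.1 : ℂ) + ζ) σ).im :=
      fun σ hσ => ((Complex.continuous_im.tendsto _).comp (tendsto_W hT z₁ hσ)).eventually
        (lt_mem_nhds (hT.pos z₁.1 σ hσ).1)
    rw [hn] at t1 t0
    filter_upwards [chi_psi hT z₁ h1, chi_psi hT z₁ h0, t1.eventually (fract_near_left n),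
      t0.eventually (fract_near_right n), hp 1 h1, hp 0 h0] with ζ a1 a0 b1 b0 p1 p0
    by_cases hζ : 0 < ζ.im
    · simp only [hζ, if_true]
      apply a1
      have hlt : tauS w z₁ 1 ζ < n := by
        rw [tauS, hn]
        have := div_pos hζ p1
        linarith
      rw [b1 hlt, hn]; ring
    · simp only [hζ, if_false]
      apply a0
      push Not at hζ
      have hge : (n : ℝ) ≤ tauS w z₁ 0 ζ := by
        rw [tauS, hn]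
        have := div_nonpos_of_nonpos_of_nonneg hζ p0.le
        linarith
      rw [b0 hge, hn]; ring

theorem ft_chart : GChart := by
  intro S _ δ ρ w c hT z₁
  refine ⟨map_chi hT z₁, fun hint => ?_, fun n hn => ?_⟩
  · have hσ : Int.fract z₁.2 ∈ Icc (0:ℝ) 1 := ⟨Int.fract_nonneg _, (Int.fract_lt_one _).le⟩
    have h2 : ∀ᶠ z : ℝ × ℝ in 𝓝 z₁, Int.fract z.2 - Int.fract z₁.2 = z.2 - z₁.2 :=
      continuous_snd.continuousAt.eventually (fract_near hint)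
    filter_upwards [eventually_mem hT z₁, h2] with z hz h3
    exact wt_eq hT hσ hz (by linarith)
  · have h1 : ∀ᶠ z : ℝ × ℝ in 𝓝 z₁, (n : ℝ) ≤ z.2 → Int.fract z.2 = z.2 - n := by
      have := fract_near_right n
      rw [← hn] at this ⊢
      exact continuous_snd.continuousAt.eventually this
    have h2 : ∀ᶠ z : ℝ × ℝ in 𝓝 z₁, z.2 < (n : ℝ) → Int.fract z.2 = 1 + (z.2 - n) := by
      have := fract_near_left n
      rw [← hn] at this ⊢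
      exact continuous_snd.continuousAt.eventually this
    filter_upwards [eventually_mem hT z₁, h1, h2] with z hz a1 a2
    refine ⟨fun hle => wt_eq hT ⟨le_rfl, zero_le_one⟩ hz ?_,
      fun hlt => wt_eq hT ⟨zero_le_one, le_rfl⟩ hz ?_⟩
    · rw [a1 (by rw [← hn]; exact hle), hn]; ring
    · rw [a2 (by rw [← hn]; exact hlt), hn]; ring

end Pool.Agent.Helper37.FT
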