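import Pool.Agent.Helper76.FT.GoalsS
import Pool.Agent.Helper37.Fol.Jac

set_option autoImplicit false

namespace Pool.Agent.Helper37.FT

open Set Filter Topology
open Pool.Agent.Helper76.FT Pool.Agent.Helper37.FTM

variable {F : ℝ × ℝ → ℝ × ℝ} {U : ℝ → ℝ → ℝ}

/-- forward half, for a sequence indexed by the naturals -/
theorem disc_fwd (h : Fol0 F U) (x v : ℕ → ℝ × ℝ) (hx : ∀ n, x (n + 1) = F (x n))
    (hv : ∀ n, v (n + 1) = fderiv ℝ F (x n) (v n)) (h0 : (v 0).1 ≤ 0) (h1 : 0 ≤ (v 1).1)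
    (hne : ¬ ((v 0).1 = 0 ∧ (v 1).1 = 0)) (n : ℕ) : 0 < (v (n + 2)).1 := by
  have hxn : ∀ n, x n = F^[n] (x 0) := by
    intro n
    induction n with
    | zero => rfl
    | succ n ih => rw [hx, ih, Function.iterate_succ_apply']
  have hvn : ∀ n, v n = fderiv ℝ (F^[n]) (x 0) (v 0) := by
    intro n
    induction n with
    | zero => rw [Function.iterate_zero, fderiv_id]; rfl
    | succ n ih =>
      rw [hv, h.fderiv_iter_succ, ContinuousLinearMap.comp_apply, ← ih, ← hxn]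
  have e1 : v 1 = fderiv ℝ F (x 0) (v 0) := by have := hv 0; simpa using this
  have hv0 : v 0 ≠ 0 := by
    intro e
    apply hne
    rw [e1, e]; simp
  rw [hvn (n + 2)]
  exact h.jac_pos hv0 h0 (by rw [← e1]; exact h1) n

theorem Rx_Rx (z : ℝ × ℝ) : Rx (Rx z) = z := by ext <;> simp [Rx]

theorem Rx_fst (z : ℝ × ℝ) : (Rx z).1 = -z.1 := by simp [Rx]

theorem ft_discR : GDiscR := by
  intro F U h x v hx hv h0 h1 hne
  constructor
  · intro n hn
    obtain ⟨k, rfl⟩ : ∃ k : ℕ, n = (k : ℤ) + 2 := ⟨(n - 2).toNat, by omega⟩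
    have := disc_fwd h (fun k => x k) (fun k => v k) (fun k => by exact_mod_cast hx k)
      (fun k => by exact_mod_cast hv k) h0 h1 hne k
    exact_mod_cast this
  · intro n hn
    obtain ⟨k, rfl⟩ : ∃ k : ℕ, n = 1 - ((k : ℤ) + 2) := ⟨(-1 - n).toNat, by omega⟩
    have hT := h.fol0_TF
    have hinv : ∀ m : ℤ, Fi F (x (m + 1)) = x m := fun m => by rw [hx, h.Fi_F]
    have key := disc_fwd hT (fun k => Rx (x (1 - (k : ℤ)))) (fun k => Rx (v (1 - (k : ℤ)))) ?_ ?_
      ?_ ?_ ?_ k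
    · have e : (1 : ℤ) - ((k + 2 : ℕ) : ℤ) = 1 - ((k : ℤ) + 2) := by push_cast; ring
      simp only [e] at key
      rw [Rx_fst] at key
      linarith
    · intro m
      have e : (1 : ℤ) - (m : ℤ) = (1 - ((m + 1 : ℕ) : ℤ)) + 1 := by push_cast; ring
      have e2 : TF F (Rx (x (1 - (m : ℤ)))) = Rx (Fi F (Rx (Rx (x (1 - (m : ℤ)))))) := rfl
      rw [e2, Rx_Rx, e, hinv]
    · intro m
      have e : (1 : ℤ) - (m : ℤ) = (1 - ((m + 1 : ℕ) : ℤ)) + 1 := by push_cast; ring
      rw [(h.hasFDerivAt_TF _).fderiv]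
      simp only [ContinuousLinearMap.comp_apply, Rx_Rx]
      congr 1
      rw [e, hinv]
      have hv' := hv (1 - ((m + 1 : ℕ) : ℤ))
      rw [← h.coe_dE] at hv'
      rw [hv']
      simp
    · simp only [Nat.cast_zero, sub_zero]
      rw [Rx_fst]; linarith
    · simp only [Nat.cast_one, sub_self]
      rw [Rx_fst]; linarith
    · rintro ⟨a, b⟩
      simp only [Nat.cast_zero, sub_zero] at a
      simp only [Nat.cast_one, sub_self] at b
      rw [Rx_fst] at a b
      exact hne ⟨by linarith, by linarith⟩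

end Pool.Agent.Helper37.FT
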