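import Pool.Agent.Helper37.FT.Chart

set_option autoImplicit false

namespace Pool.Agent.Helper37.FT

open Complex Set Filter Topology
open Pool.Agent.Helper76.FT

variable {S : Sys} {δ ρ : ℝ} {w : ℂ → ℝ → ℂ} {c : ℂ}

theorem TH_self {f : ℝ × ℝ → ℂ} {z₁ : ℝ × ℝ} {h : ℂ → ℂ}
    (he : ∀ᶠ z in 𝓝 z₁, f z = h (chi w z₁ z)) : f z₁ = h 0 := by
  have := he.self_of_nhds
  rwa [chi_self] at this

/-- `GOM` from the chart -/
theorem ft_om : GOM := by
  intro S _ δ ρ w c hT z₁
  have hmap := map_chi hT z₁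
  have ht := tendsto_chi hT z₁
  refine ⟨fun f hf => ?_, fun f g Φ D hD hΦ hm hf hg => ?_⟩
  · obtain ⟨h, hh, he⟩ := hf
    have h0 : f z₁ = h 0 := TH_self he
    refine ⟨?_, ?_⟩
    · rcases hh.eventually_constant_or_nhds_le_map_nhds with h1 | h1
      · left
        have h2 := ht.eventually h1
        filter_upwards [h2, he] with z hz hz'
        rw [hz', hz, h0]
      · right
        rw [h0]
        refine h1.trans ?_
        rw [← hmap, Filter.map_map]
        refine le_of_eq (Filter.map_congr ?_)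
        filter_upwards [he] with z hz
        rw [hz]; rfl
    · have h1 : Tendsto (fun z => h (chi w z₁ z)) (𝓝 z₁) (𝓝 (h 0)) :=
        hh.continuousAt.tendsto.comp ht
      have h2 : Tendsto f (𝓝 z₁) (𝓝 (h 0)) :=
        h1.congr' (he.mono fun z hz => hz.symm)
      rw [← h0] at h2
      exact h2
  · obtain ⟨h, hh, he⟩ := hf
    obtain ⟨k, hk, ke⟩ := hg
    have h0 : f z₁ = h 0 := TH_self he
    have k0 : g z₁ = k 0 := TH_self ke
    refine ⟨fun ζ => Φ (h ζ, k ζ), ?_, ?_⟩
    · -- complex differentiable near `0`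
      have hc : ContinuousAt (fun ζ => (h ζ, k ζ)) 0 := hh.continuousAt.prodMk hk.continuousAt
      have h1 : ∀ᶠ ζ in 𝓝 (0 : ℂ), (h ζ, k ζ) ∈ D := by
        refine hc.eventually (hD.mem_nhds ?_)
        show (h 0, k 0) ∈ D
        rw [← h0, ← k0]; exact hm
      have h2 : ∀ᶠ ζ in 𝓝 (0 : ℂ), DifferentiableAt ℂ (fun ζ => Φ (h ζ, k ζ)) ζ := by
        filter_upwards [h1, hh.eventually_analyticAt, hk.eventually_analyticAt] with ζ a b d
        have e1 : DifferentiableAt ℂ Φ (h ζ, k ζ) := (hΦ _ a).differentiableAt (hD.mem_nhds a)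
        exact DifferentiableAt.comp (f := fun ζ => (h ζ, k ζ)) ζ e1
          (b.differentiableAt.prodMk d.differentiableAt)
      obtain ⟨V, hV, hVo, hV0⟩ := eventually_nhds_iff.1 h2
      have h3 : DifferentiableOn ℂ (fun ζ => Φ (h ζ, k ζ)) V :=
        fun ζ hζ => (hV ζ hζ).differentiableWithinAt
      exact h3.analyticAt (hVo.mem_nhds hV0)
    · filter_upwards [he, ke] with z a b
      rw [a, b]

theorem ft_om' : GChart → GOM := fun _ => ft_om

end Pool.Agent.Helper37.FT
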