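import Pool.Agent.Helper76.FT.GoalsS

set_option autoImplicit false

namespace Pool.Agent.Helper37.FT

open Set Filter Topology
open Pool.Agent.Helper76.FT Pool.Agent.Helper37.FTM

variable {F : ℝ × ℝ → ℝ × ℝ} {U : ℝ → ℝ → ℝ}

/-- position at time `t` of the particle of the leaf `Y` which starts at `x` -/
noncomputable def hh (F : ℝ × ℝ → ℝ × ℝ) (U : ℝ → ℝ → ℝ) (Y t x : ℝ) : ℝ :=
  (1 - t) * x + t * ff F U Y x

/-- starting point of the particle which is at `q` at time `t` -/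
noncomputable def hi (F : ℝ × ℝ → ℝ × ℝ) (U : ℝ → ℝ → ℝ) (Y t q : ℝ) : ℝ :=
  Function.invFun (hh F U Y t) q

/-- velocity field of the leaves -/
noncomputable def VV (F : ℝ × ℝ → ℝ × ℝ) (U : ℝ → ℝ → ℝ) (Y q t : ℝ) : ℝ :=
  ff F U Y (hi F U Y t q) - hi F U Y t q

theorem hh_strictMono (h : Fol0 F U) (Y : ℝ) {t : ℝ} (ht : t ∈ Icc (0:ℝ) 1) :
    StrictMono (hh F U Y t) := by
  intro x x' hx
  have h1 := h.ff_strictMono Y hx
  unfold hh
  rcases eq_or_lt_of_le ht.1 with h0 | h0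
  · rw [← h0]; simpa using hx
  · have a1 := mul_lt_mul_of_pos_left h1 h0
    have a2 := mul_le_mul_of_nonneg_left hx.le (by linarith [ht.2] : (0:ℝ) ≤ 1 - t)
    linarith

theorem hh_add_one (h : Fol0 F U) (Y t x : ℝ) : hh F U Y t (x + 1) = hh F U Y t x + 1 := by
  unfold hh; rw [h.ff_add_one]; ring

theorem continuous_hh (h : Fol0 F U) : Continuous fun z : ℝ × ℝ × ℝ => hh F U z.1 z.2.1 z.2.2 := by
  unfold hh
  have := h.continuous_ff
  have h1 : Continuous fun z : ℝ × ℝ × ℝ => ff F U z.1 z.2.2 :=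
    this.comp (f := fun z : ℝ × ℝ × ℝ => (z.1, z.2.2)) (by fun_prop)
  fun_prop

theorem hh_surj (h : Fol0 F U) (Y : ℝ) {t : ℝ} (ht : t ∈ Icc (0:ℝ) 1) :
    Function.Surjective (hh F U Y t) := by
  let L : CircleDeg1Lift :=
    { toFun := hh F U Y t
      monotone' := (hh_strictMono h Y ht).monotone
      map_add_one' := hh_add_one h Y t }
  have hc : Continuous L :=
    (continuous_hh h).comp (f := fun x : ℝ => (Y, t, x)) (by fun_prop)
  exact (CircleDeg1Lift.continuous_iff_surjective L).1 hc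

theorem hh_hi (h : Fol0 F U) (Y : ℝ) {t : ℝ} (ht : t ∈ Icc (0:ℝ) 1) (q : ℝ) :
    hh F U Y t (hi F U Y t q) = q :=
  Function.invFun_eq (hh_surj h Y ht q)

theorem hi_hh (h : Fol0 F U) (Y : ℝ) {t : ℝ} (ht : t ∈ Icc (0:ℝ) 1) (x : ℝ) :
    hi F U Y t (hh F U Y t x) = x :=
  (hh_strictMono h Y ht).injective (hh_hi h Y ht _)

theorem hi_eq (h : Fol0 F U) (Y : ℝ) {t : ℝ} (ht : t ∈ Icc (0:ℝ) 1) {x q : ℝ}
    (e : hh F U Y t x = q) : hi F U Y t q = x := by rw [← e, hi_hh h Y ht]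

/-- the velocity along the particle line -/
theorem VV_hh (h : Fol0 F U) (Y : ℝ) {t : ℝ} (ht : t ∈ Icc (0:ℝ) 1) (x : ℝ) :
    VV F U Y (hh F U Y t x) t = ff F U Y x - x := by
  unfold VV; rw [hi_hh h Y ht]

theorem q_eq (h : Fol0 F U) (Y : ℝ) {t : ℝ} (ht : t ∈ Icc (0:ℝ) 1) (q : ℝ) :
    q = hi F U Y t q + t * VV F U Y q t := by
  have := hh_hi h Y ht q
  unfold hh at this
  unfold VV
  linarith

theorem continuousOn_hi (h : Fol0 F U) :
    ContinuousOn (fun z : ℝ × ℝ × ℝ => hi F U z.1 z.2.2 z.2.1)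
      (univ ×ˢ (univ ×ˢ Icc (0:ℝ) 1)) := by
  rintro ⟨Y, q, t⟩ ⟨-, -, ht⟩
  have ht : t ∈ Icc (0:ℝ) 1 := ht
  have hc : ∀ a : ℝ, Continuous fun z : ℝ × ℝ × ℝ => hh F U z.1 z.2.2 a - z.2.1 := fun a => by
    have := (continuous_hh h).comp (f := fun z : ℝ × ℝ × ℝ => (z.1, z.2.2, a)) (by fun_prop)
    exact this.sub (by fun_prop)
  have hmem : ∀ᶠ z : ℝ × ℝ × ℝ in 𝓝[univ ×ˢ (univ ×ˢ Icc (0:ℝ) 1)] (Y, q, t),
      z.2.2 ∈ Icc (0:ℝ) 1 := by
    filter_upwards [self_mem_nhdsWithin] with z hz using hz.2.2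
  refine tendsto_order.2 ⟨fun a ha => ?_, fun a ha => ?_⟩
  · have ha : a < hi F U Y t q := ha
    have h1 : hh F U Y t a - q < 0 := by
      have := hh_strictMono h Y ht ha
      rw [hh_hi h Y ht] at this
      linarith
    have h2 : ∀ᶠ z : ℝ × ℝ × ℝ in 𝓝 (Y, q, t), hh F U z.1 z.2.2 a - z.2.1 < 0 :=
      (hc a).continuousAt.eventually (gt_mem_nhds h1)
    filter_upwards [h2.filter_mono nhdsWithin_le_nhds, hmem] with z hz hz'
    have h3 := hh_hi h z.1 hz' z.2.1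
    rw [← (hh_strictMono h z.1 hz').lt_iff_lt, h3]
    linarith
  · have ha : hi F U Y t q < a := ha
    have h1 : 0 < hh F U Y t a - q := by
      have := hh_strictMono h Y ht ha
      rw [hh_hi h Y ht] at this
      linarith
    have h2 : ∀ᶠ z : ℝ × ℝ × ℝ in 𝓝 (Y, q, t), 0 < hh F U z.1 z.2.2 a - z.2.1 :=
      (hc a).continuousAt.eventually (lt_mem_nhds h1)
    filter_upwards [h2.filter_mono nhdsWithin_le_nhds, hmem] with z hz hz'
    have h3 := hh_hi h z.1 hz' z.2.1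
    rw [← (hh_strictMono h z.1 hz').lt_iff_lt, h3]
    linarith

theorem vok (h : Fol0 F U) : VOk F U (VV F U) := by
  have h0 : (0:ℝ) ∈ Icc (0:ℝ) 1 := ⟨le_rfl, zero_le_one⟩
  have h1 : (1:ℝ) ∈ Icc (0:ℝ) 1 := ⟨zero_le_one, le_rfl⟩
  refine ⟨fun Y x => ?_, fun Y x => ?_, ?_, fun Y q t ht => ?_, fun Y Y' hY q t ht => ?_,
    fun Y q s hs t ht => ?_⟩
  · have := VV_hh h Y h0 x
    rwa [show hh F U Y 0 x = x by simp [hh]] at this
  · have := VV_hh h Y h1 x
    rwa [show hh F U Y 1 x = ff F U Y x by simp [hh]] at this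
  · have hc := continuousOn_hi h
    have h2 : ContinuousOn (fun z : ℝ × ℝ × ℝ => ff F U z.1 (hi F U z.1 z.2.2 z.2.1))
        (univ ×ˢ (univ ×ˢ Icc (0:ℝ) 1)) :=
      h.continuous_ff.comp_continuousOn (f := fun z : ℝ × ℝ × ℝ => (z.1, hi F U z.1 z.2.2 z.2.1))
        (continuousOn_fst.prodMk hc)
    exact h2.sub hc
  · have e : hi F U Y t (q + 1) = hi F U Y t q + 1 := by
      apply hi_eq h Y ht
      rw [hh_add_one h, hh_hi h Y ht]
    unfold VV
    rw [e, h.ff_add_one]; ring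
  · by_contra hc
    push Not at hc
    have e1 := q_eq h Y ht q
    have e2 := q_eq h Y' ht q
    set x := hi F U Y t q
    set x' := hi F U Y' t q
    have hv : VV F U Y q t = ff F U Y x - x := rfl
    have hv' : VV F U Y' q t = ff F U Y' x' - x' := rfl
    have a1 : x ≤ x' := by
      have := mul_le_mul_of_nonneg_left hc ht.1
      linarith
    have a2 : ff F U Y x < ff F U Y' x' :=
      lt_of_le_of_lt ((h.ff_strictMono Y).monotone a1) (h.ff_mono_left hY x')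
    have a3 := mul_le_mul_of_nonneg_left hc (by linarith [ht.2] : (0:ℝ) ≤ 1 - t)
    have a4 : ff F U Y x = q + (1 - t) * VV F U Y q t := by
      rw [hv] at e1 ⊢; linarith
    have a5 : ff F U Y' x' = q + (1 - t) * VV F U Y' q t := by
      rw [hv'] at e2 ⊢; linarith
    linarith
  · have e1 := q_eq h Y ht q
    set x := hi F U Y t q
    have hv : VV F U Y q t = ff F U Y x - x := rfl
    have e2 : q + (s - t) * VV F U Y q t = hh F U Y s x := by
      unfold hh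
      rw [hv] at e1 ⊢
      linear_combination e1
    rw [e2, VV_hh h Y hs, hv]

theorem ft_V : GV := fun F U h => ⟨VV F U, vok h⟩

end Pool.Agent.Helper37.FT
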