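import Pool.Agent.Helper37.Fol.PR
import Pool.Agent.Helper37.FT.Vel

/-! # Neighbourhoods of real regions; real velocity coordinates -/

set_option autoImplicit false

namespace Pool.Agent.Helper37.FT

open Set Filter Topology
open Pool.Agent.Helper76.FT Pool.Agent.Helper37.FTM

/-- complex neighbourhood of a real set -/
def nbs (C : Set (ℝ × ℝ)) (r : ℝ) : Set (ℂ × ℂ) :=
  {z | ∃ y ∈ C, ‖z.1 - (y.1 : ℂ)‖ < r ∧ ‖z.2 - (y.2 : ℂ)‖ < r}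

theorem mem_ball_rc {y : ℝ × ℝ} {z : ℂ × ℂ} {r : ℝ} :
    z ∈ Metric.ball (rc y) r ↔ ‖z.1 - (y.1 : ℂ)‖ < r ∧ ‖z.2 - (y.2 : ℂ)‖ < r := by
  rw [Metric.mem_ball, Prod.dist_eq, max_lt_iff, dist_eq_norm, dist_eq_norm]; rfl

theorem mem_nbs {C : Set (ℝ × ℝ)} {r : ℝ} {z : ℂ × ℂ} :
    z ∈ nbs C r ↔ ∃ y ∈ C, z ∈ Metric.ball (rc y) r := by
  simp only [nbs, mem_ball_rc]; rfl

theorem ball_subset_nbs {C : Set (ℝ × ℝ)} {r : ℝ} {y : ℝ × ℝ} (hy : y ∈ C) :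
    Metric.ball (rc y) r ⊆ nbs C r := fun _ hz => mem_nbs.2 ⟨y, hy, hz⟩

theorem isOpen_nbs (C : Set (ℝ × ℝ)) (r : ℝ) : IsOpen (nbs C r) := by
  have : nbs C r = ⋃ y ∈ C, Metric.ball (rc y) r := by
    ext z; simp [mem_nbs]
  rw [this]
  exact isOpen_biUnion fun _ _ => Metric.isOpen_ball

theorem nbs_mono (C : Set (ℝ × ℝ)) {r s : ℝ} (h : r ≤ s) : nbs C r ⊆ nbs C s := by
  rintro z ⟨y, hy, h1, h2⟩
  exact ⟨y, hy, h1.trans_le h, h2.trans_le h⟩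

theorem rc_mem_nbs {C : Set (ℝ × ℝ)} {r : ℝ} (hr : 0 < r) {y : ℝ × ℝ} (hy : y ∈ C) :
    rc y ∈ nbs C r := ball_subset_nbs hy (Metric.mem_ball_self hr)

/-- identity theorem on a neighbourhood of a real set -/
theorem nbs_eqOn {C : Set (ℝ × ℝ)} {r : ℝ} {f g : ℂ × ℂ → ℂ} (hf : DifferentiableOn ℂ f (nbs C r))
    (hg : DifferentiableOn ℂ g (nbs C r))
    (he : ∀ q : ℝ × ℝ, rc q ∈ nbs C r → f (rc q) = g (rc q)) : EqOn f g (nbs C r) := by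
  intro z hz
  obtain ⟨y, hy, hzy⟩ := mem_nbs.1 hz
  have hs := ball_subset_nbs (r := r) hy
  exact eq_of_balls (hf.mono hs) (hg.mono hs) (fun q hq _ => he q (hs hq)) hzy hzy

/-- closed real sets, bounded in the second and 1-periodic in the first variable -/
structure Band (C : Set (ℝ × ℝ)) : Prop where
  closed : IsClosed C
  bdd : ∃ M : ℝ, ∀ y ∈ C, |y.2| ≤ M
  per : ∀ y : ℝ × ℝ, y + (1, 0) ∈ C ↔ y ∈ C

theorem Band.add_int {C : Set (ℝ × ℝ)} (hC : Band C) (y : ℝ × ℝ) (m : ℤ) :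
    y + ((m : ℝ), 0) ∈ C ↔ y ∈ C := by
  induction m with
  | zero =>
    have e : y + (((0 : ℤ) : ℝ), 0) = y := by ext <;> simp
    rw [e]
  | succ i hi =>
    rw [← hi, ← hC.per (y + (((i : ℤ) : ℝ), 0))]
    have e : y + (((i + 1 : ℤ) : ℝ), 0) = y + (((i : ℤ) : ℝ), 0) + (1, 0) := by
      ext <;> push_cast <;> simp; ring
    rw [e]
  | pred i hi =>
    rw [← hi, ← hC.per (y + (((-(i : ℤ) - 1 : ℤ) : ℝ), 0))]
    have e : y + (((-(i : ℤ) - 1 : ℤ) : ℝ), 0) + (1, 0) = y + (((-(i : ℤ) : ℤ) : ℝ), 0) := by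
      ext <;> push_cast <;> simp; ring
    rw [e]

/-- compact fundamental part -/
theorem Band.compact {C : Set (ℝ × ℝ)} (hC : Band C) :
    IsCompact (C ∩ {y | y.1 ∈ Icc (0:ℝ) 1}) := by
  obtain ⟨M, hM⟩ := hC.bdd
  have h1 : C ∩ {y | y.1 ∈ Icc (0:ℝ) 1} = C ∩ (Icc (0:ℝ) 1 ×ˢ Icc (-M) M) := by
    ext y
    constructor
    · rintro ⟨a, b⟩
      exact ⟨a, b, abs_le.1 (hM y a)⟩
    · rintro ⟨a, b, -⟩
      exact ⟨a, b⟩
  rw [h1]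
  exact (isCompact_Icc.prod isCompact_Icc).inter_left hC.closed

theorem Band.fract {C : Set (ℝ × ℝ)} (hC : Band C) {y : ℝ × ℝ} (hy : y ∈ C) :
    (Int.fract y.1, y.2) ∈ C ∩ {y | y.1 ∈ Icc (0:ℝ) 1} := by
  refine ⟨?_, Int.fract_nonneg _, (Int.fract_lt_one _).le⟩
  rw [← hC.add_int y (-⌊y.1⌋)] at hy
  have e : y + (((-⌊y.1⌋ : ℤ) : ℝ), 0) = (Int.fract y.1, y.2) := by
    ext
    · show y.1 + ((-⌊y.1⌋ : ℤ) : ℝ) = y.1 - ⌊y.1⌋
      push_cast; ring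
    · simp
  rwa [e] at hy

theorem rc_fract (y : ℝ × ℝ) : rc (Int.fract y.1, y.2) = rc y + (((-⌊y.1⌋ : ℤ) : ℂ), 0) := by
  ext
  · show ((Int.fract y.1 : ℝ) : ℂ) = (y.1 : ℂ) + ((-⌊y.1⌋ : ℤ) : ℂ)
    rw [show Int.fract y.1 = y.1 - ⌊y.1⌋ from rfl]
    push_cast; ring
  · simp [rc]

theorem nbs_exists {C : Set (ℝ × ℝ)} (hC : Band C) {A : Set (ℂ × ℂ)} (hA : IsOpen A)
    (hCA : ∀ y ∈ C, rc y ∈ A) (ht : ∀ z, z + (1, 0) ∈ A ↔ z ∈ A) :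
    ∃ r : ℝ, 0 < r ∧ nbs C r ⊆ A := by
  have hK : IsCompact (rc '' (C ∩ {y | y.1 ∈ Icc (0:ℝ) 1})) := hC.compact.image continuous_rc
  obtain ⟨r, h0, hrA⟩ := hK.exists_thickening_subset_open hA (by
    rintro _ ⟨p, hp, rfl⟩; exact hCA p hp.1)
  refine ⟨r, h0, fun z hz => ?_⟩
  obtain ⟨y, hy, hzy⟩ := mem_nbs.1 hz
  rw [← add_int_mem ht z (-⌊y.1⌋)]
  apply hrA
  rw [Metric.mem_thickening_iff]
  refine ⟨rc (Int.fract y.1, y.2), mem_image_of_mem _ (hC.fract hy), ?_⟩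
  rw [rc_fract, dist_add_right]
  exact hzy

theorem per_int {A : Set (ℂ × ℂ)} (ht : ∀ z, z + (1, 0) ∈ A ↔ z ∈ A) {ψ : ℂ × ℂ → ℝ}
    (hper : ∀ z ∈ A, ψ (z + (1, 0)) = ψ z) (z : ℂ × ℂ) (hz : z ∈ A) (m : ℤ) :
    ψ (z + ((m : ℂ), 0)) = ψ z := by
  induction m with
  | zero =>
    have e : z + (((0 : ℤ) : ℂ), 0) = z := by ext <;> simp
    rw [e]
  | succ i hi =>
    have e : z + (((i + 1 : ℤ) : ℂ), 0) = z + (((i : ℤ) : ℂ), 0) + (1, 0) := by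
      ext <;> push_cast <;> simp; ring
    rw [e, hper _ ((add_int_mem ht z i).2 hz), hi]
  | pred i hi =>
    have e : z + (((-(i : ℤ) - 1 : ℤ) : ℂ), 0) + (1, 0) = z + (((-(i : ℤ) : ℤ) : ℂ), 0) := by
      ext <;> push_cast <;> simp; ring
    rw [← hi, ← e, hper _ ((add_int_mem ht z _).2 hz)]

/-- an upper bound on the real set -/
theorem nbs_bdd {C : Set (ℝ × ℝ)} (hC : Band C) {A : Set (ℂ × ℂ)}
    (hCA : ∀ y ∈ C, rc y ∈ A) (ht : ∀ z, z + (1, 0) ∈ A ↔ z ∈ A) {ψ : ℂ × ℂ → ℝ}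
    (hψ : ContinuousOn ψ A) (hper : ∀ z ∈ A, ψ (z + (1, 0)) = ψ z) :
    ∃ c, ∀ y ∈ C, ψ (rc y) < c := by
  obtain ⟨c, hc⟩ := hC.compact.bddAbove_image (f := fun y => ψ (rc y))
    (hψ.comp continuous_rc.continuousOn fun y hy => hCA y hy.1)
  refine ⟨c + 1, fun y hy => ?_⟩
  have h1 := hc (mem_image_of_mem _ (hC.fract hy))
  rw [rc_fract, per_int ht hper _ (hCA y hy)] at h1
  linarith

/-- a strict upper bound on the real set persists on a neighbourhood -/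
theorem nbs_bound {C : Set (ℝ × ℝ)} (hC : Band C) {A : Set (ℂ × ℂ)} (hA : IsOpen A)
    (hCA : ∀ y ∈ C, rc y ∈ A) (ht : ∀ z, z + (1, 0) ∈ A ↔ z ∈ A) {ψ : ℂ × ℂ → ℝ}
    (hψ : ContinuousOn ψ A) (hper : ∀ z ∈ A, ψ (z + (1, 0)) = ψ z) {c : ℝ}
    (hc : ∀ y ∈ C, ψ (rc y) < c) :
    ∃ c' < c, ∃ r : ℝ, 0 < r ∧ nbs C r ⊆ A ∧ ∀ z ∈ nbs C r, ψ z < c' := by
  obtain ⟨c', hc', hlt⟩ : ∃ c' < c, ∀ y ∈ C, ψ (rc y) < c' := by
    rcases (C ∩ {y | y.1 ∈ Icc (0:ℝ) 1}).eq_empty_or_nonempty with h0 | h0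
    · refine ⟨c - 1, by linarith, fun y hy => ?_⟩
      have := hC.fract hy
      rw [h0] at this
      exact absurd this (notMem_empty _)
    · obtain ⟨y0, hy0, hmax⟩ := hC.compact.exists_isMaxOn h0 (f := fun y => ψ (rc y))
        (hψ.comp continuous_rc.continuousOn fun y hy => hCA y hy.1)
      have h1 := hc y0 hy0.1
      refine ⟨(ψ (rc y0) + c) / 2, by linarith, fun y hy => ?_⟩
      have h2 : ψ (rc (Int.fract y.1, y.2)) ≤ ψ (rc y0) := hmax (hC.fract hy)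
      rw [rc_fract, per_int ht hper _ (hCA y hy)] at h2
      linarith
  have hA' : IsOpen (A ∩ ψ ⁻¹' Iio c') := hψ.isOpen_inter_preimage hA isOpen_Iio
  obtain ⟨r, hr, hrs⟩ := nbs_exists hC hA' (fun y hy => ⟨hCA y hy, hlt y hy⟩) (fun z => by
    constructor
    · rintro ⟨a, b⟩
      have a' := (ht z).1 a
      exact ⟨a', by simpa [hper z a'] using b⟩
    · rintro ⟨a, b⟩
      exact ⟨(ht z).2 a, by simpa [hper z a] using b⟩)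
  exact ⟨c', hc', r, hr, fun z hz => (hrs hz).1, fun z hz => (hrs hz).2⟩

theorem nbs_trans {C : Set (ℝ × ℝ)} (hC : Band C) (r : ℝ) (z : ℂ × ℂ) :
    z + (1, 0) ∈ nbs C r ↔ z ∈ nbs C r := by
  rw [mem_nbs, mem_nbs]
  constructor
  · rintro ⟨y, hy, hz⟩
    refine ⟨y - (1, 0), by rw [← hC.per, sub_add_cancel]; exact hy, ?_⟩
    rw [← rc_sub_one, ← add_mem_ball (a := (1, 0)), sub_add_cancel]; exact hz
  · rintro ⟨y, hy, hz⟩
    refine ⟨y + (1, 0), (hC.per y).2 hy, ?_⟩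
    rw [← rc_add_one, add_mem_ball]; exact hz

theorem nbs_conj {C : Set (ℝ × ℝ)} {r : ℝ} {z : ℂ × ℂ} (hz : z ∈ nbs C r) : cj z ∈ nbs C r := by
  obtain ⟨y, hy, h⟩ := mem_nbs.1 hz
  exact mem_nbs.2 ⟨y, hy, cj_mem_ball h⟩

/-! ### Real formulas -/

section real

variable {F : ℝ × ℝ → ℝ × ℝ} {U : ℝ → ℝ → ℝ}

/-- momentum after the kick as a function of position and incoming velocity -/
noncomputable def QR (F : ℝ × ℝ → ℝ × ℝ) (p : ℝ × ℝ) : ℝ := (F (p.1 - p.2, PR F (p.1 - p.2, p.2))).2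

/-- outgoing velocity -/
noncomputable def KR (F : ℝ × ℝ → ℝ × ℝ) (p : ℝ × ℝ) : ℝ := (F (p.1, QR F p)).1 - p.1

/-- incoming velocity -/
noncomputable def KIR (F : ℝ × ℝ → ℝ × ℝ) (p : ℝ × ℝ) : ℝ := p.1 - (Fi F (p.1, PR F p)).1

variable (h : Fol0 F U)
include h

theorem F_back {p : ℝ × ℝ} (hp : (p.1 - p.2, p.2) ∈ Wd F) :
    F (p.1 - p.2, PR F (p.1 - p.2, p.2)) = (p.1, QR F p) := by
  have := h.F_PR hp
  refine Prod.ext ?_ rfl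
  rw [this]; simp

theorem KR_mem {p : ℝ × ℝ} : (p.1, KR F p) ∈ Wd F := ⟨(p.1, QR F p), rfl⟩

theorem PR_KR (p : ℝ × ℝ) : PR F (p.1, KR F p) = QR F p := h.PR_eq rfl

theorem KIR_KR {p : ℝ × ℝ} (hp : (p.1 - p.2, p.2) ∈ Wd F) : KIR F (p.1, KR F p) = p.2 := by
  unfold KIR
  rw [PR_KR h, ← F_back h hp, h.Fi_F]
  simp

theorem KIR_mem {p : ℝ × ℝ} (hp : p ∈ Wd F) :
    (p.1 - KIR F p, KIR F p) ∈ Wd F ∧ QR F (p.1, KIR F p) = PR F p ∧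
      KR F (p.1, KIR F p) = p.2 := by
  set z := Fi F (p.1, PR F p) with hz
  have hFz : F z = (p.1, PR F p) := h.F_Fi _
  have e1 : KIR F p = p.1 - z.1 := rfl
  have e2 : Th F z = (p.1 - KIR F p, KIR F p) := by
    rw [e1]
    ext
    · simp [Th]
    · simp [Th, hFz]
  have hm : (p.1 - KIR F p, KIR F p) ∈ Wd F := ⟨z, e2⟩
  have e3 : PR F (p.1 - KIR F p, KIR F p) = z.2 := by rw [← e2, h.PR_Th]
  have e4 : QR F (p.1, KIR F p) = PR F p := by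
    unfold QR
    simp only
    rw [e3, show p.1 - KIR F p = z.1 by rw [e1]; ring, Prod.mk.eta, hFz]
  refine ⟨hm, e4, ?_⟩
  unfold KR
  simp only
  rw [e4, h.F_PR hp]; ring

theorem leaf_mem (Y x : ℝ) : (x, VV F U Y x 0) ∈ Wd F ∧ PR F (x, VV F U Y x 0) = U Y x := by
  have e : VV F U Y x 0 = (F (x, U Y x)).1 - x := (vok h).zero Y x
  refine ⟨⟨(x, U Y x), by rw [e]; rfl⟩, h.PR_eq e.symm⟩

theorem leaf_one (Y q : ℝ) : ∃ x, q = ff F U Y x ∧ VV F U Y q 1 = ff F U Y x - x := by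
  obtain ⟨x, hx⟩ := (h.lift_bijective Y).2 q
  have hx' : ff F U Y x = q := hx
  exact ⟨x, hx'.symm, by rw [← hx']; exact (vok h).one Y x⟩

theorem KR_leaf (Y q : ℝ) : (q - VV F U Y q 1, VV F U Y q 1) ∈ Wd F ∧
    QR F (q, VV F U Y q 1) = U Y q ∧ KR F (q, VV F U Y q 1) = VV F U Y q 0 := by
  obtain ⟨x, hx, hv⟩ := leaf_one h Y q
  have e1 : q - VV F U Y q 1 = x := by rw [hv, hx]; ring
  have e0 : VV F U Y x 0 = ff F U Y x - x := (vok h).zero Y x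
  have hm : (x, VV F U Y q 1) = (x, VV F U Y x 0) := by rw [hv, e0]
  have hl := leaf_mem h Y x
  have e2 : QR F (q, VV F U Y q 1) = U Y q := by
    unfold QR
    simp only
    rw [e1, hm, hl.2, h.F_graph, ← hx]
  refine ⟨by rw [e1, hm]; exact hl.1, e2, ?_⟩
  unfold KR
  simp only
  rw [e2, (vok h).zero]; rfl

theorem KIR_leaf (Y q : ℝ) : KIR F (q, VV F U Y q 0) = VV F U Y q 1 := by
  have h1 := KR_leaf h Y q
  have h2 := KIR_KR h (p := (q, VV F U Y q 1)) h1.1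
  simp only [h1.2.2] at h2
  exact h2

end real

end Pool.Agent.Helper37.FT
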