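import Pool.Agent.Helper37.FT.SysA
import Pool.Agent.Helper37.FT.DiscR

/-! # Analyticity and derivatives of the velocity formulas -/

set_option autoImplicit false

namespace Pool.Agent.Helper37.FT

open Set Filter Topology
open Pool.Agent.Helper76.FT Pool.Agent.Helper37.FTM

variable {F : ℝ × ℝ → ℝ × ℝ} {U : ℝ → ℝ → ℝ}

/-- domain of the incoming pairs -/
def W1 (F : ℝ × ℝ → ℝ × ℝ) : Set (ℝ × ℝ) := {p | (p.1 - p.2, p.2) ∈ Wd F}

/-- derivative of a complexified function at real points -/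
theorem fderiv_rc {f : ℝ × ℝ → ℝ} {Ω : Set (ℝ × ℝ)} {c : ℝ} {O : Set (ℂ × ℂ)} {g : ℂ × ℂ → ℂ}
    (hg : CxFunOn f Ω c O g) (hΩ : IsOpen Ω) {p : ℝ × ℝ} (hp : p ∈ Ω)
    (hf : DifferentiableAt ℝ f p) (v : ℝ × ℝ) :
    fderiv ℂ g (rc p) (rc v) = ((fderiv ℝ f p v : ℝ) : ℂ) := by
  have h1 : HasFDerivAt g (fderiv ℂ g (rc p)) (rc p) :=
    (hg.an _ ((hg.real_iff p).2 hp)).differentiableAt.hasFDerivAt
  have h2 : HasFDerivAt (fun q => g (rcL q)) (((fderiv ℂ g (rc p)).restrictScalars ℝ).comp rcL) p :=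
    (h1.restrictScalars ℝ).comp p rcL.hasFDerivAt
  have h3 : HasFDerivAt (fun q => ((f q : ℝ) : ℂ)) (Complex.ofRealCLM.comp (fderiv ℝ f p)) p :=
    Complex.ofRealCLM.hasFDerivAt.comp p hf.hasFDerivAt
  have e : (fun q => g (rcL q)) =ᶠ[𝓝 p] fun q => ((f q : ℝ) : ℂ) := by
    filter_upwards [hΩ.mem_nhds hp] with q hq
    exact hg.real q hq
  have h4 := h2.unique (h3.congr_of_eventuallyEq e)
  exact congrArg (fun A => A v) h4

section
variable (h : Fol0 F U)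
include h

theorem isOpen_W1 : IsOpen (W1 F) := by
  have := h.isOpen_Wd
  exact this.preimage (by fun_prop : Continuous fun p : ℝ × ℝ => (p.1 - p.2, p.2))

theorem W1_trans (p : ℝ × ℝ) : p + (1, 0) ∈ W1 F ↔ p ∈ W1 F := by
  have e : ((p + ((1 : ℝ), (0 : ℝ))).1 - (p + ((1 : ℝ), (0 : ℝ))).2, (p + ((1 : ℝ), (0 : ℝ))).2)
      = (p.1 - p.2, p.2) + ((1 : ℝ), (0 : ℝ)) := by
    ext
    · simp; ring
    · simp
  show _ ∈ Wd F ↔ _
  rw [e, h.Wd_trans]; rfl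

theorem an_PR1 {p : ℝ × ℝ} (hp : p ∈ W1 F) :
    AnalyticAt ℝ (fun p : ℝ × ℝ => PR F (p.1 - p.2, p.2)) p := by
  have h1 : AnalyticAt ℝ (fun p : ℝ × ℝ => (p.1 - p.2, p.2)) p :=
    (analyticAt_fst.sub analyticAt_snd).prod analyticAt_snd
  exact (h.analytic_PR _ hp).comp_of_eq h1 rfl

theorem an_QR : AnalyticOnNhd ℝ (QR F) (W1 F) := by
  intro p hp
  have h2 := an_PR1 h hp
  have h3 : AnalyticAt ℝ (fun p : ℝ × ℝ => F (p.1 - p.2, PR F (p.1 - p.2, p.2))) p :=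
    (h.an _ (mem_univ _)).comp_of_eq ((analyticAt_fst.sub analyticAt_snd).prod h2) rfl
  exact analyticAt_snd.comp_of_eq h3 rfl

theorem an_KR : AnalyticOnNhd ℝ (KR F) (W1 F) := by
  intro p hp
  have h3 : AnalyticAt ℝ (fun p : ℝ × ℝ => F (p.1, QR F p)) p :=
    (h.an _ (mem_univ _)).comp_of_eq (analyticAt_fst.prod (an_QR h p hp)) rfl
  exact (analyticAt_fst.comp_of_eq h3 rfl).sub analyticAt_fst

theorem an_KIR : AnalyticOnNhd ℝ (KIR F) (Wd F) := by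
  intro p hp
  have h3 : AnalyticAt ℝ (fun p : ℝ × ℝ => Fi F (p.1, PR F p)) p :=
    (h.analytic_Fi _ (mem_univ _)).comp_of_eq (analyticAt_fst.prod (h.analytic_PR p hp)) rfl
  exact analyticAt_fst.sub (analyticAt_fst.comp_of_eq h3 rfl)

theorem QR_per (x w : ℝ) : QR F (x + 1, w) = QR F (x, w) + 0 := by
  unfold QR
  simp only
  have e : x + 1 - w = (x - w) + 1 := by ring
  rw [e, h.PR_per, add_zero, h.per]
  simp

theorem KR_per (x w : ℝ) : KR F (x + 1, w) = KR F (x, w) + 0 := by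
  unfold KR
  simp only
  rw [QR_per h, add_zero, h.per]
  simp

theorem KIR_per (x w : ℝ) : KIR F (x + 1, w) = KIR F (x, w) + 0 := by
  unfold KIR
  simp only
  rw [h.PR_per, add_zero, h.Fi_per']
  simp

theorem PR_zero (hF0 : ∀ x : ℝ, F (x, 0) = (x, 0)) (x : ℝ) : PR F (x, 0) = 0 :=
  h.PR_eq (by rw [hF0]; simp)

theorem QR_zero (hF0 : ∀ x : ℝ, F (x, 0) = (x, 0)) (x : ℝ) : QR F (x, 0) = 0 := by
  unfold QR
  simp only [sub_zero]
  rw [PR_zero h hF0, hF0]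

/-- derivative of the momentum -/
theorem dPR_fst {z : ℝ × ℝ} (hz : z ∈ Wd F) (v : ℝ × ℝ) :
    (fderiv ℝ F (z.1, PR F z) (v.1, fderiv ℝ (PR F) z v)).1 = v.1 + v.2 := by
  have hd : HasFDerivAt (PR F) (fderiv ℝ (PR F) z) z :=
    (h.analytic_PR z hz).differentiableAt.hasFDerivAt
  have h1 : HasFDerivAt (fun z => F (z.1, PR F z)) ((fderiv ℝ F (z.1, PR F z)).comp
      ((ContinuousLinearMap.fst ℝ ℝ ℝ).prod (fderiv ℝ (PR F) z))) z :=
    (h.differentiableAt_F (z.1, PR F z)).hasFDerivAt.comp z (hasFDerivAt_fst.prodMk hd)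
  have h2 := (ContinuousLinearMap.fst ℝ ℝ ℝ).hasFDerivAt.comp z h1
  have h3 : HasFDerivAt (fun z : ℝ × ℝ => z.1 + z.2)
      (ContinuousLinearMap.fst ℝ ℝ ℝ + ContinuousLinearMap.snd ℝ ℝ ℝ) z :=
    hasFDerivAt_fst.add hasFDerivAt_snd
  have e : ((ContinuousLinearMap.fst ℝ ℝ ℝ) ∘ fun z => F (z.1, PR F z)) =ᶠ[𝓝 z]
      fun z : ℝ × ℝ => z.1 + z.2 := by
    filter_upwards [h.isOpen_Wd.mem_nhds hz] with w hw
    exact h.F_PR hw
  have h4 := h2.unique (h3.congr_of_eventuallyEq e)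
  exact congrArg (fun A => A v) h4

theorem dPR_mul {z : ℝ × ℝ} (hz : z ∈ Wd F) :
    fderiv ℝ (PR F) z (0, 1) * (fderiv ℝ F (z.1, PR F z) (0, 1)).1 = 1 := by
  have h1 := dPR_fst h hz (0, 1)
  have e : ((0 : ℝ), fderiv ℝ (PR F) z (0, 1)) = fderiv ℝ (PR F) z (0, 1) • ((0 : ℝ), (1 : ℝ)) := by
    ext <;> simp
  simp only at h1
  rw [e, map_smul] at h1
  simpa using h1

theorem dPR_pos {z : ℝ × ℝ} (hz : z ∈ Wd F) : 0 < fderiv ℝ (PR F) z (0, 1) := by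
  have h1 := dPR_mul h hz
  have h2 := h.twist' (z.1, PR F z)
  by_contra hc
  push Not at hc
  have := mul_nonpos_of_nonpos_of_nonneg hc h2.le
  linarith

theorem dQR {p : ℝ × ℝ} (hp : p ∈ W1 F) :
    fderiv ℝ (QR F) p (0, 1) = fderiv ℝ (PR F) (p.1 - p.2, p.2) (0, 1) := by
  have hp' : (p.1 - p.2, p.2) ∈ Wd F := hp
  set z : ℝ × ℝ := (p.1 - p.2, p.2) with hz
  have hd : HasFDerivAt (PR F) (fderiv ℝ (PR F) z) z :=
    (h.analytic_PR z hp').differentiableAt.hasFDerivAt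
  have h1 : HasFDerivAt (fun z => F (z.1, PR F z)) ((fderiv ℝ F (z.1, PR F z)).comp
      ((ContinuousLinearMap.fst ℝ ℝ ℝ).prod (fderiv ℝ (PR F) z))) z :=
    (h.differentiableAt_F (z.1, PR F z)).hasFDerivAt.comp z (hasFDerivAt_fst.prodMk hd)
  have h2 : HasFDerivAt (fun p : ℝ × ℝ => (p.1 - p.2, p.2)) ((ContinuousLinearMap.fst ℝ ℝ ℝ -
      ContinuousLinearMap.snd ℝ ℝ ℝ).prod (ContinuousLinearMap.snd ℝ ℝ ℝ)) p :=
    (hasFDerivAt_fst.sub hasFDerivAt_snd).prodMk hasFDerivAt_snd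
  have h3 := (ContinuousLinearMap.snd ℝ ℝ ℝ).hasFDerivAt.comp p (h1.comp p h2)
  have h4 : HasFDerivAt (QR F) _ p := h3
  rw [h4.fderiv]
  have h5 := dPR_fst h hp' (-1, 1)
  have h6 := dPR_mul h hp'
  have h7 := inv_fst (h.det (z.1, PR F z)) ((-1 : ℝ), fderiv ℝ (PR F) z (-1, 1))
  simp only [ContinuousLinearMap.coe_coe] at h7
  simp only at h5
  rw [h5] at h7
  have e : ((ContinuousLinearMap.snd ℝ ℝ ℝ).comp (((fderiv ℝ F (z.1, PR F z)).comp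
      ((ContinuousLinearMap.fst ℝ ℝ ℝ).prod (fderiv ℝ (PR F) z))).comp
      ((ContinuousLinearMap.fst ℝ ℝ ℝ - ContinuousLinearMap.snd ℝ ℝ ℝ).prod
      (ContinuousLinearMap.snd ℝ ℝ ℝ)))) (0, 1) =
      (fderiv ℝ F (z.1, PR F z) (-1, fderiv ℝ (PR F) z (-1, 1))).2 := by
    simp
  rw [e]
  have h8 := h.twist' (z.1, PR F z)
  set b := (fderiv ℝ F (z.1, PR F z) (0, 1)).1
  set s := (fderiv ℝ F (z.1, PR F z) (-1, fderiv ℝ (PR F) z (-1, 1))).2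
  set l := fderiv ℝ (PR F) z (0, 1)
  have h9 : b * (s - l) = 0 := by
    have : b * s = 1 := by
      have h7' : (-1 : ℝ) = (fderiv ℝ F (z.1, PR F z) (0, 1)).2 * (-1 + 1) - b * s := h7
      linarith
    linear_combination this - h6
  rcases mul_eq_zero.1 h9 with h10 | h10
  · exact absurd h10 h8.ne'
  · linarith

/-- the conjugacy of the two pictures on tangent vectors -/
theorem conj_vec {z : ℝ × ℝ} (hz : z ∈ Wd F) (v : ℝ × ℝ) :
    fderiv ℝ F (z.1, PR F z) (v.1, fderiv ℝ (PR F) z v) =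
      (v.1 + v.2, fderiv ℝ (PR F) (z.1 + z.2, KR F (z.1 + z.2, z.2))
        (v.1 + v.2, fderiv ℝ (KR F) (z.1 + z.2, z.2) (v.1 + v.2, v.2))) := by
  refine Prod.ext (dPR_fst h hz v) ?_
  have hd : HasFDerivAt (PR F) (fderiv ℝ (PR F) z) z :=
    (h.analytic_PR z hz).differentiableAt.hasFDerivAt
  have h1 : HasFDerivAt (fun z => F (z.1, PR F z)) ((fderiv ℝ F (z.1, PR F z)).comp
      ((ContinuousLinearMap.fst ℝ ℝ ℝ).prod (fderiv ℝ (PR F) z))) z :=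
    (h.differentiableAt_F (z.1, PR F z)).hasFDerivAt.comp z (hasFDerivAt_fst.prodMk hd)
  have h2 := (ContinuousLinearMap.snd ℝ ℝ ℝ).hasFDerivAt.comp z h1
  set q : ℝ × ℝ := (z.1 + z.2, z.2) with hq
  have hqW : q ∈ W1 F := by
    show (q.1 - q.2, q.2) ∈ Wd F
    have : (q.1 - q.2, q.2) = z := by ext <;> simp [hq]
    rw [this]; exact hz
  have hK : HasFDerivAt (KR F) (fderiv ℝ (KR F) q) q :=
    (an_KR h q hqW).differentiableAt.hasFDerivAt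
  have hl : HasFDerivAt (fun z : ℝ × ℝ => (z.1 + z.2, z.2)) ((ContinuousLinearMap.fst ℝ ℝ ℝ +
      ContinuousLinearMap.snd ℝ ℝ ℝ).prod (ContinuousLinearMap.snd ℝ ℝ ℝ)) z :=
    (hasFDerivAt_fst.add hasFDerivAt_snd).prodMk hasFDerivAt_snd
  have h3 := hK.comp z hl
  have h4 : HasFDerivAt (fun z : ℝ × ℝ => (z.1 + z.2, KR F (z.1 + z.2, z.2)))
      ((ContinuousLinearMap.fst ℝ ℝ ℝ + ContinuousLinearMap.snd ℝ ℝ ℝ).prod
        ((fderiv ℝ (KR F) q).comp ((ContinuousLinearMap.fst ℝ ℝ ℝ +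
      ContinuousLinearMap.snd ℝ ℝ ℝ).prod (ContinuousLinearMap.snd ℝ ℝ ℝ)))) z :=
    (hasFDerivAt_fst.add hasFDerivAt_snd).prodMk h3
  have hm : (z.1 + z.2, KR F (z.1 + z.2, z.2)) ∈ Wd F := KR_mem h (p := (z.1 + z.2, z.2))
  have hd' : HasFDerivAt (PR F) (fderiv ℝ (PR F) (z.1 + z.2, KR F (z.1 + z.2, z.2)))
      (z.1 + z.2, KR F (z.1 + z.2, z.2)) := (h.analytic_PR _ hm).differentiableAt.hasFDerivAt
  have h5 := hd'.comp z h4
  have e : ((ContinuousLinearMap.snd ℝ ℝ ℝ) ∘ fun z => F (z.1, PR F z)) =ᶠ[𝓝 z]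
      (PR F ∘ fun z : ℝ × ℝ => (z.1 + z.2, KR F (z.1 + z.2, z.2))) := by
    filter_upwards [h.isOpen_Wd.mem_nhds hz] with w hw
    have e1 := PR_KR h (w.1 + w.2, w.2)
    simp only at e1
    have e2 := F_back h (p := (w.1 + w.2, w.2)) (by simpa using hw)
    simp only [add_sub_cancel_right, Prod.mk.eta] at e2
    show (F (w.1, PR F w)).2 = PR F (w.1 + w.2, KR F (w.1 + w.2, w.2))
    rw [e1, e2]
  have h6 := h2.unique (h5.congr_of_eventuallyEq e)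
  exact congrArg (fun A => A v) h6

/-- no conjugate points, in velocity coordinates -/
theorem disc_vel (z : ℤ → ℝ × ℝ) (hz : ∀ n, z n ∈ Wd F)
    (hT : ∀ n, z (n + 1) = ((z n).1 + (z n).2, KR F ((z n).1 + (z n).2, (z n).2)))
    (ξ η : ℤ → ℝ) (hξ : ∀ n, ξ (n + 1) = ξ n + η n)
    (hη : ∀ n, η (n + 1) = fderiv ℝ (KR F) ((z n).1 + (z n).2, (z n).2) (ξ (n + 1), η n))
    (h0 : ξ 0 ≤ 0) (h1 : 0 ≤ ξ 1) (hne : ¬ (ξ 0 = 0 ∧ ξ 1 = 0)) :
    (∀ n : ℤ, 2 ≤ n → 0 < ξ n) ∧ (∀ n : ℤ, n ≤ -1 → ξ n < 0) := by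
  refine ft_discR F U h (fun n => ((z n).1, PR F (z n)))
    (fun n => (ξ n, fderiv ℝ (PR F) (z n) (ξ n, η n))) ?_ ?_ h0 h1 hne
  · intro n
    have e2 := F_back h (p := ((z n).1 + (z n).2, (z n).2)) (by simpa using hz n)
    simp only [add_sub_cancel_right, Prod.mk.eta] at e2
    have e1 := PR_KR h ((z n).1 + (z n).2, (z n).2)
    simp only at e1
    show ((z (n + 1)).1, PR F (z (n + 1))) = F ((z n).1, PR F (z n))
    rw [e2, hT n, e1]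
  · intro n
    have e1 := conj_vec h (hz n) (ξ n, η n)
    show (ξ (n + 1), fderiv ℝ (PR F) (z (n + 1)) (ξ (n + 1), η (n + 1))) =
      fderiv ℝ F ((z n).1, PR F (z n)) (ξ n, fderiv ℝ (PR F) (z n) (ξ n, η n))
    rw [e1, hT n, hη n, hξ n]

end

end Pool.Agent.Helper37.FT
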