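import Pool.Agent.Helper37.FT.SysB

/-! # The real regions -/

set_option autoImplicit false

namespace Pool.Agent.Helper37.FT

open Set Filter Topology
open Pool.Agent.Helper76.FT Pool.Agent.Helper37.FTM

variable {F : ℝ × ℝ → ℝ × ℝ} {U : ℝ → ℝ → ℝ}

/-- the region between the leaves `-B` and `B` at time `t` -/
def Rg (F : ℝ × ℝ → ℝ × ℝ) (U : ℝ → ℝ → ℝ) (B t : ℝ) : Set (ℝ × ℝ) :=
  {y | VV F U (-B) y.1 t ≤ y.2 ∧ y.2 ≤ VV F U B y.1 t}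

section
variable (h : Fol0 F U)
include h

theorem continuous_VV_t (Y : ℝ) {t : ℝ} (ht : t ∈ Icc (0:ℝ) 1) :
    Continuous fun q : ℝ => VV F U Y q t := by
  have h1 := (vok h).cont
  have h2 : Continuous fun q : ℝ => ((Y, q, t) : ℝ × ℝ × ℝ) := by fun_prop
  exact h1.comp_continuous h2 fun q => ⟨mem_univ _, mem_univ _, ht⟩

theorem continuous_VV_Y (q : ℝ) {t : ℝ} (ht : t ∈ Icc (0:ℝ) 1) :
    Continuous fun Y : ℝ => VV F U Y q t := by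
  have h1 := (vok h).cont
  have h2 : Continuous fun Y : ℝ => ((Y, q, t) : ℝ × ℝ × ℝ) := by fun_prop
  exact h1.comp_continuous h2 fun q => ⟨mem_univ _, mem_univ _, ht⟩

theorem VV_bdd (Y : ℝ) {t : ℝ} (ht : t ∈ Icc (0:ℝ) 1) : ∃ M, ∀ q, |VV F U Y q t| ≤ M := by
  obtain ⟨M, hM⟩ := (isCompact_Icc (a := (0:ℝ)) (b := 1)).exists_bound_of_continuousOn
    (continuous_VV_t h Y ht).continuousOn
  refine ⟨M, fun q => ?_⟩
  have hp : Function.Periodic (fun q => VV F U Y q t) 1 := fun q => (vok h).per Y q t ht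
  have e : VV F U Y q t = VV F U Y (Int.fract q) t := by
    have := hp.sub_zsmul_eq ⌊q⌋ (x := q)
    rw [← show (fun q => VV F U Y q t) (q - ⌊q⌋ • (1:ℝ)) = VV F U Y q t from this]
    show VV F U Y (q - ⌊q⌋ • (1:ℝ)) t = VV F U Y (q - ⌊q⌋) t
    rw [zsmul_eq_mul, mul_one]
  rw [e]
  exact hM _ ⟨Int.fract_nonneg _, (Int.fract_lt_one _).le⟩

theorem band_Rg (B : ℝ) {t : ℝ} (ht : t ∈ Icc (0:ℝ) 1) : Band (Rg F U B t) := by
  refine ⟨?_, ?_, ?_⟩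
  · exact (isClosed_le ((continuous_VV_t h (-B) ht).comp continuous_fst) continuous_snd).inter
      (isClosed_le continuous_snd ((continuous_VV_t h B ht).comp continuous_fst))
  · obtain ⟨M1, h1⟩ := VV_bdd h (-B) ht
    obtain ⟨M2, h2⟩ := VV_bdd h B ht
    refine ⟨max M1 M2, fun y hy => abs_le.2 ⟨?_, ?_⟩⟩
    · have := (abs_le.1 (h1 y.1)).1
      have := le_max_left M1 M2
      linarith [hy.1]
    · have := (abs_le.1 (h2 y.1)).2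
      have := le_max_right M1 M2
      linarith [hy.2]
  · intro y
    show VV F U (-B) (y + (1, 0)).1 t ≤ (y + ((1 : ℝ), (0 : ℝ))).2 ∧
      (y + ((1 : ℝ), (0 : ℝ))).2 ≤ VV F U B (y + (1, 0)).1 t ↔ _
    have e1 : (y + ((1 : ℝ), (0 : ℝ))).1 = y.1 + 1 := by simp
    have e2 : (y + ((1 : ℝ), (0 : ℝ))).2 = y.2 := by simp
    rw [e1, e2, (vok h).per _ _ _ ht, (vok h).per _ _ _ ht]
    rfl

/-- every point of the region lies on a leaf -/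
theorem Rg_leaf {B : ℝ} (hB : 0 < B) {t : ℝ} (ht : t ∈ Icc (0:ℝ) 1) {y : ℝ × ℝ}
    (hy : y ∈ Rg F U B t) : ∃ Y ∈ Icc (-B) B, VV F U Y y.1 t = y.2 := by
  have h1 := intermediate_value_Icc (by linarith : -B ≤ B)
    (continuous_VV_Y h y.1 ht).continuousOn
  obtain ⟨Y, hY, e⟩ := h1 ⟨hy.1, hy.2⟩
  exact ⟨Y, hY, e⟩

theorem leaf_Rg {B Y : ℝ} (hY : Y ∈ Icc (-B) B) (q : ℝ) {t : ℝ} (ht : t ∈ Icc (0:ℝ) 1) :
    (q, VV F U Y q t) ∈ Rg F U B t := by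
  have hm : Monotone fun Y => VV F U Y q t :=
    (show StrictMono fun Y => VV F U Y q t from
      fun a b hab => (vok h).mono a b hab q t ht).monotone
  exact ⟨hm hY.1, hm hY.2⟩

theorem Rg_shift {B : ℝ} (hB : 0 < B) {s t : ℝ} (hs : s ∈ Icc (0:ℝ) 1) (ht : t ∈ Icc (0:ℝ) 1)
    {y : ℝ × ℝ} (hy : y ∈ Rg F U B t) : (y.1 + (s - t) * y.2, y.2) ∈ Rg F U B s := by
  obtain ⟨Y, hY, e⟩ := Rg_leaf h hB ht hy
  have h1 := (vok h).line Y y.1 s hs t ht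
  rw [e] at h1
  have h2 := leaf_Rg h hY (y.1 + (s - t) * y.2) hs
  rwa [h1] at h2

omit h in
theorem VV_zero (hU0 : ∀ x : ℝ, U 0 x = 0) (hF0 : ∀ x : ℝ, F (x, 0) = (x, 0)) (q t : ℝ) :
    VV F U 0 q t = 0 := by
  unfold VV ff
  rw [hU0, hF0]
  simp

theorem Rg_star (hU0 : ∀ x : ℝ, U 0 x = 0) (hF0 : ∀ x : ℝ, F (x, 0) = (x, 0)) {B : ℝ}
    (hB : 0 < B) {s t : ℝ} (hs : s ∈ Icc (0:ℝ) 1) (ht : t ∈ Icc (0:ℝ) 1)
    {y : ℝ × ℝ} (hy : y ∈ Rg F U B t) : (y.1, s * y.2) ∈ Rg F U B t := by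
  have h1 := (vok h).mono (-B) 0 (by linarith) y.1 t ht
  have h2 := (vok h).mono 0 B hB y.1 t ht
  rw [VV_zero hU0 hF0] at h1 h2
  obtain ⟨a, b⟩ := hy
  constructor
  · show VV F U (-B) y.1 t ≤ s * y.2
    rcases le_total 0 y.2 with h0 | h0
    · have := mul_nonneg hs.1 h0
      linarith
    · have : s * y.2 ≥ 1 * y.2 := mul_le_mul_of_nonpos_right hs.2 h0
      linarith
  · show s * y.2 ≤ VV F U B y.1 t
    rcases le_total 0 y.2 with h0 | h0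
    · have : s * y.2 ≤ 1 * y.2 := mul_le_mul_of_nonneg_right hs.2 h0
      linarith
    · have := mul_nonpos_of_nonneg_of_nonpos hs.1 h0
      linarith

theorem Rg_path (hU0 : ∀ x : ℝ, U 0 x = 0) (hF0 : ∀ x : ℝ, F (x, 0) = (x, 0)) {B : ℝ}
    (hB : 0 < B) {s t : ℝ} (hs : s ∈ Icc (0:ℝ) 1) (ht : t ∈ Icc (0:ℝ) 1)
    {y : ℝ × ℝ} (hy : y ∈ Rg F U B t) : (y.1 - t * s * y.2, s * y.2) ∈ Rg F U B 0 := by
  have h1 := Rg_star h hU0 hF0 hB hs ht hy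
  have h2 := Rg_shift h hB (s := 0) ⟨le_rfl, zero_le_one⟩ ht h1
  have e : y.1 + (0 - t) * (s * y.2) = y.1 - t * s * y.2 := by ring
  simp only [e] at h2
  exact h2

theorem Rg0_sub {B : ℝ} (hB : 0 < B) : Rg F U B 0 ⊆ Wd F := by
  intro y hy
  obtain ⟨Y, hY, e⟩ := Rg_leaf h hB ⟨le_rfl, zero_le_one⟩ hy
  have := (leaf_mem h Y y.1).1
  rw [e] at this
  exact this

theorem Rg1_sub {B : ℝ} (hB : 0 < B) : Rg F U B 1 ⊆ W1 F := by
  intro y hy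
  obtain ⟨Y, hY, e⟩ := Rg_leaf h hB ⟨zero_le_one, le_rfl⟩ hy
  have := (KR_leaf h Y y.1).1
  rw [e] at this
  exact this

theorem KR_Rg {B : ℝ} (hB : 0 < B) {y : ℝ × ℝ} (hy : y ∈ Rg F U B 1) :
    (y.1, KR F y) ∈ Rg F U B 0 := by
  obtain ⟨Y, hY, e⟩ := Rg_leaf h hB ⟨zero_le_one, le_rfl⟩ hy
  have h1 := (KR_leaf h Y y.1).2.2
  rw [e] at h1
  have h2 : KR F y = VV F U Y y.1 0 := h1
  rw [h2]
  exact leaf_Rg h hY y.1 ⟨le_rfl, zero_le_one⟩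

theorem KIR_Rg {B : ℝ} (hB : 0 < B) {y : ℝ × ℝ} (hy : y ∈ Rg F U B 0) :
    (y.1, KIR F y) ∈ Rg F U B 1 := by
  obtain ⟨Y, hY, e⟩ := Rg_leaf h hB ⟨le_rfl, zero_le_one⟩ hy
  have h1 := KIR_leaf h Y y.1
  rw [e] at h1
  have h2 : KIR F y = VV F U Y y.1 1 := h1
  rw [h2]
  exact leaf_Rg h hY y.1 ⟨zero_le_one, le_rfl⟩

/-! ### orbits -/

/-- inverse of the leaf map -/
theorem ff_sub (Y x : ℝ) : ff F U Y (x - VV F U Y x 1) = x := by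
  obtain ⟨z, hz, hv⟩ := leaf_one h Y x
  rw [hv, hz]
  congr 1
  ring

theorem sub_ff (Y x : ℝ) : ff F U Y x - VV F U Y (ff F U Y x) 1 = x := by
  rw [(vok h).one]; ring

theorem iter_ff_sub (Y x : ℝ) (n : ℕ) :
    (ff F U Y)^[n] ((fun x => x - VV F U Y x 1)^[n] x) = x :=
  Function.LeftInverse.iterate (g := ff F U Y) (f := fun x => x - VV F U Y x 1)
    (fun x => ff_sub h Y x) n x

end

/-- the neighbourhood of the region contains the straight paths -/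
theorem nbs_path (h : Fol0 F U) (hU0 : ∀ x : ℝ, U 0 x = 0) (hF0 : ∀ x : ℝ, F (x, 0) = (x, 0))
    {B : ℝ} (hB : 0 < B) {r R : ℝ} (hr : 0 < r) (hrR : 2 * r ≤ R) {s t : ℝ} (hs : s ∈ Icc (0:ℝ) 1)
    (ht : t ∈ Icc (0:ℝ) 1) {z : ℂ × ℂ} (hz : z ∈ nbs (Rg F U B t) r) :
    (z.1 - t * s * z.2, s * z.2) ∈ nbs (Rg F U B 0) R := by
  obtain ⟨y, hy, h1, h2⟩ := hz
  refine ⟨_, Rg_path h hU0 hF0 hB hs ht hy, ?_, ?_⟩
  · have e : z.1 - t * s * z.2 - ((y.1 - t * s * y.2 : ℝ) : ℂ) =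
        (z.1 - y.1) - ((t * s : ℝ) : ℂ) * (z.2 - y.2) := by push_cast; ring
    show ‖z.1 - t * s * z.2 - ((y.1 - t * s * y.2 : ℝ) : ℂ)‖ < R
    rw [e]
    have h3 : ‖((t * s : ℝ) : ℂ) * (z.2 - y.2)‖ ≤ 1 * ‖z.2 - y.2‖ := by
      rw [norm_mul, Complex.norm_real]
      apply mul_le_mul_of_nonneg_right _ (norm_nonneg _)
      rw [Real.norm_eq_abs, abs_of_nonneg (mul_nonneg ht.1 hs.1)]
      exact mul_le_one₀ ht.2 hs.1 hs.2
    have h4 := norm_sub_le (z.1 - (y.1 : ℂ)) (((t * s : ℝ) : ℂ) * (z.2 - y.2))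
    linarith
  · have e : s * z.2 - ((s * y.2 : ℝ) : ℂ) = (s : ℂ) * (z.2 - y.2) := by push_cast; ring
    show ‖s * z.2 - ((s * y.2 : ℝ) : ℂ)‖ < R
    rw [e, norm_mul, Complex.norm_real, Real.norm_eq_abs, abs_of_nonneg hs.1]
    have h3 : s * ‖z.2 - y.2‖ ≤ 1 * ‖z.2 - y.2‖ :=
      mul_le_mul_of_nonneg_right hs.2 (norm_nonneg _)
    linarith

/-- segments towards the zero velocity stay in the neighbourhood -/
theorem nbs_seg (h : Fol0 F U) (hU0 : ∀ x : ℝ, U 0 x = 0) (hF0 : ∀ x : ℝ, F (x, 0) = (x, 0))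
    {B : ℝ} (hB : 0 < B) {r : ℝ} {s t : ℝ} (hs : s ∈ Icc (0:ℝ) 1)
    (ht : t ∈ Icc (0:ℝ) 1) {z : ℂ × ℂ} (hz : z ∈ nbs (Rg F U B t) r) :
    (z.1, s * z.2) ∈ nbs (Rg F U B t) r := by
  obtain ⟨y, hy, h1, h2⟩ := hz
  refine ⟨_, Rg_star h hU0 hF0 hB hs ht hy, h1, ?_⟩
  have e : s * z.2 - ((s * y.2 : ℝ) : ℂ) = (s : ℂ) * (z.2 - y.2) := by push_cast; ring
  show ‖s * z.2 - ((s * y.2 : ℝ) : ℂ)‖ < r
  rw [e, norm_mul, Complex.norm_real, Real.norm_eq_abs, abs_of_nonneg hs.1]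
  have h3 : s * ‖z.2 - y.2‖ ≤ 1 * ‖z.2 - y.2‖ :=
    mul_le_mul_of_nonneg_right hs.2 (norm_nonneg _)
  linarith

/-- fundamental theorem along a vertical segment -/
theorem ftc_seg {f : ℂ × ℂ → ℂ} {A : Set (ℂ × ℂ)} (hf : AnalyticOnNhd ℂ f A) {z : ℂ × ℂ}
    (hz : ∀ s ∈ Icc (0:ℝ) 1, (z.1, (s : ℂ) * z.2) ∈ A) :
    z.2 * ∫ s in (0:ℝ)..1, fderiv ℂ f (z.1, (s : ℂ) * z.2) (0, 1) = f z - f (z.1, 0) := by
  have hl : ∀ s : ℝ, HasDerivAt (fun s : ℝ => (z.1, (s : ℂ) * z.2)) ((0 : ℂ), z.2) s := fun s => by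
    have h1 : HasDerivAt (fun s : ℝ => (s : ℂ) * z.2) (1 * z.2) s :=
      (Complex.ofRealCLM.hasDerivAt (x := s)).mul_const z.2
    rw [one_mul] at h1
    exact (hasDerivAt_const s z.1).prodMk h1
  have e : ∀ s : ℝ, fderiv ℂ f (z.1, (s : ℂ) * z.2) (0, z.2) =
      z.2 * fderiv ℂ f (z.1, (s : ℂ) * z.2) (0, 1) := fun s => by
    have : ((0 : ℂ), z.2) = z.2 • ((0 : ℂ), (1 : ℂ)) := by ext <;> simp
    rw [this, map_smul, smul_eq_mul]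
  have hd : ∀ s ∈ uIcc (0:ℝ) 1, HasDerivAt (fun s : ℝ => f (z.1, (s : ℂ) * z.2))
      (fderiv ℂ f (z.1, (s : ℂ) * z.2) (0, z.2)) s := by
    intro s hs
    rw [uIcc_of_le zero_le_one] at hs
    have h1 : HasFDerivAt f (fderiv ℂ f (z.1, (s : ℂ) * z.2)) (z.1, (s : ℂ) * z.2) :=
      (hf _ (hz s hs)).differentiableAt.hasFDerivAt
    exact (h1.restrictScalars ℝ).comp_hasDerivAt s (hl s)
  have hc : ContinuousOn (fun s : ℝ => fderiv ℂ f (z.1, (s : ℂ) * z.2) (0, z.2)) (uIcc (0:ℝ) 1) := by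
    have h1 : ContinuousOn (fun x => fderiv ℂ f x (0, z.2)) A := by
      have := hf.fderiv.continuousOn
      fun_prop
    refine h1.comp (f := fun s : ℝ => (z.1, (s : ℂ) * z.2)) (by fun_prop) fun s hs => ?_
    rw [uIcc_of_le zero_le_one] at hs
    exact hz s hs
  have h1 := intervalIntegral.integral_eq_sub_of_hasDerivAt hd hc.intervalIntegrable
  rw [← intervalIntegral.integral_const_mul]
  simp only [e] at h1
  rw [h1]
  simp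

end Pool.Agent.Helper37.FT
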