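import Pool.Agent.Helper37.FT.SysC

/-! # Radii of the complex neighbourhoods -/

set_option autoImplicit false

namespace Pool.Agent.Helper37.FT

open Set Filter Topology
open Pool.Agent.Helper76.FT Pool.Agent.Helper37.FTM

variable {F : ℝ × ℝ → ℝ × ℝ} {U : ℝ → ℝ → ℝ}

/-- the derivative in the second variable -/
noncomputable def kap (P : ℂ × ℂ → ℂ) (z : ℂ × ℂ) : ℂ := fderiv ℂ P z (0, 1)

theorem an_kap {P : ℂ × ℂ → ℂ} {O : Set (ℂ × ℂ)} (hP : AnalyticOnNhd ℂ P O) :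
    AnalyticOnNhd ℂ (kap P) O := by
  intro z hz
  exact ((ContinuousLinearMap.apply ℂ ℂ ((0 : ℂ), (1 : ℂ))).analyticAt _).comp_of_eq
    (hP.fderiv z hz) rfl

theorem kap_trans {f : ℝ × ℝ → ℝ} {Ω : Set (ℝ × ℝ)} {c : ℝ} {O : Set (ℂ × ℂ)} {P : ℂ × ℂ → ℂ}
    (hP : CxFunOn f Ω c O P) {z : ℂ × ℂ} (hz : z ∈ O) : kap P (z + (1, 0)) = kap P z := by
  have h1 : (fun w => P (w + (1, 0))) =ᶠ[𝓝 z] fun w => P w + c := by
    filter_upwards [hP.isOpen.mem_nhds hz] with w hw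
    exact hP.map_trans w hw
  have h2 : fderiv ℂ (fun w => P (w + (1, 0))) z = fderiv ℂ P (z + (1, 0)) :=
    fderiv_comp_add_right _
  unfold kap
  rw [← h2, h1.fderiv_eq, fderiv_add_const]

theorem hasDerivAt_kap {P : ℂ × ℂ → ℂ} {z : ℂ × ℂ} (hP : DifferentiableAt ℂ P z) :
    HasDerivAt (fun w => P (z.1, w)) (kap P z) z.2 :=
  hP.hasFDerivAt.comp_hasDerivAt z.2 ((hasDerivAt_const z.2 z.1).prodMk (hasDerivAt_id z.2))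

theorem kap_conj {f : ℝ × ℝ → ℝ} {Ω : Set (ℝ × ℝ)} {c : ℝ} {O : Set (ℂ × ℂ)} {P : ℂ × ℂ → ℂ}
    (hP : CxFunOn f Ω c O P) {z : ℂ × ℂ} (hz : z ∈ O) :
    kap P (cj z) = starRingEnd ℂ (kap P z) := by
  have h1 := (hasDerivAt_kap (hP.an z hz).differentiableAt).conj_conj
  have h2 := hasDerivAt_kap (hP.an _ (hP.conj_mem z hz)).differentiableAt
  have e : (fun w => P ((cj z).1, w)) =ᶠ[𝓝 (cj z).2]
      (⇑(starRingEnd ℂ) ∘ (fun w => P (z.1, w)) ∘ ⇑(starRingEnd ℂ)) := by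
    have hc : Continuous fun u : ℂ => (z.1, starRingEnd ℂ u) := by fun_prop
    have hm : (fun u : ℂ => (z.1, starRingEnd ℂ u)) (cj z).2 ∈ O := by
      show (z.1, starRingEnd ℂ (starRingEnd ℂ z.2)) ∈ O
      rw [Complex.conj_conj]; exact hz
    filter_upwards [hc.continuousAt.preimage_mem_nhds (hP.isOpen.mem_nhds hm)] with u hu
    have h3 := hP.map_conj _ hu
    have e2 : cj (z.1, starRingEnd ℂ u) = ((cj z).1, u) := by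
      ext <;> simp [cj]
    simp only [e2] at h3
    exact h3
  exact h2.unique (h1.congr_of_eventuallyEq e)

theorem nbs_norm {C : Set (ℝ × ℝ)} (hC : Band C) {A : Set (ℂ × ℂ)} (hA : IsOpen A)
    (hCA : ∀ y ∈ C, rc y ∈ A) (ht : ∀ z, z + (1, 0) ∈ A ↔ z ∈ A) {g : ℂ × ℂ → ℂ}
    (hg : ContinuousOn g A) (hper : ∀ z ∈ A, g (z + (1, 0)) = g z) :
    ∃ M r : ℝ, 0 < r ∧ nbs C r ⊆ A ∧ ∀ z ∈ nbs C r, ‖g z‖ ≤ M := by
  have hψ : ContinuousOn (fun z => ‖g z‖) A := hg.norm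
  have hp : ∀ z ∈ A, ‖g (z + (1, 0))‖ = ‖g z‖ := fun z hz => by rw [hper z hz]
  obtain ⟨c, hc⟩ := nbs_bdd hC hCA ht hψ hp
  obtain ⟨c', -, r, hr, hs, hb⟩ := nbs_bound hC hA hCA ht hψ hp hc
  exact ⟨c', r, hr, hs, fun z hz => (hb z hz).le⟩

/-- the four complexified functions -/
structure Dat (F : ℝ × ℝ → ℝ × ℝ) (OP : Set (ℂ × ℂ)) (P : ℂ × ℂ → ℂ) (OQ : Set (ℂ × ℂ))
    (Q : ℂ × ℂ → ℂ) (OK : Set (ℂ × ℂ)) (K : ℂ × ℂ → ℂ) (OI : Set (ℂ × ℂ)) (Ki : ℂ × ℂ → ℂ) :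
    Prop where
  hP : CxFunOn (PR F) (Wd F) 0 OP P
  hQ : CxFunOn (QR F) (W1 F) 0 OQ Q
  hK : CxFunOn (KR F) (W1 F) 0 OK K
  hI : CxFunOn (KIR F) (Wd F) 0 OI Ki

theorem exists_dat (h : Fol0 F U) : ∃ OP P OQ Q OK K OI Ki, Dat F OP P OQ Q OK K OI Ki := by
  obtain ⟨OP, P, hP⟩ := h.exists_Pc
  obtain ⟨OQ, Q, hQ⟩ := exists_cx_on (isOpen_W1 h) (W1_trans h) (an_QR h) (QR_per h)
  obtain ⟨OK, K, hK⟩ := exists_cx_on (isOpen_W1 h) (W1_trans h) (an_KR h) (KR_per h)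
  obtain ⟨OI, Ki, hI⟩ := exists_cx_on h.isOpen_Wd h.Wd_trans (an_KIR h) (KIR_per h)
  exact ⟨OP, P, OQ, Q, OK, K, OI, Ki, hP, hQ, hK, hI⟩

theorem map_trans0 {f : ℝ × ℝ → ℝ} {Ω : Set (ℝ × ℝ)} {O : Set (ℂ × ℂ)} {g : ℂ × ℂ → ℂ}
    (hg : CxFunOn f Ω 0 O g) {z : ℂ × ℂ} (hz : z ∈ O) : g (z + (1, 0)) = g z := by
  rw [hg.map_trans z hz]; simp

/-- radii -/
structure Rad (F : ℝ × ℝ → ℝ × ℝ) (U : ℝ → ℝ → ℝ) (OP : Set (ℂ × ℂ)) (P : ℂ × ℂ → ℂ)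
    (OQ OK : Set (ℂ × ℂ)) (K : ℂ × ℂ → ℂ) (OI : Set (ℂ × ℂ)) (Ki : ℂ × ℂ → ℂ)
    (B r R k0 M : ℝ) : Prop where
  hr : 0 < r
  hrR : 2 * r ≤ R
  hk0 : 0 < k0
  P0 : ∀ z ∈ nbs (Rg F U B 0) R, z ∈ OP ∧ ‖kap P z‖ ≤ M ∧ k0 ≤ (kap P z).re
  K1 : ∀ z ∈ nbs (Rg F U B 1) r, z ∈ OK ∧ z ∈ OQ ∧ ‖K z‖ ≤ M ∧
    (z.1, K z) ∈ nbs (Rg F U B 0) R ∧ (z.1, K z) ∈ OI
  I0 : ∀ z ∈ nbs (Rg F U B 0) r, z ∈ OI ∧ ‖Ki z‖ ≤ M ∧ (z.1, Ki z) ∈ OK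

theorem exists_rad (h : Fol0 F U) {OP : Set (ℂ × ℂ)} {P : ℂ × ℂ → ℂ} {OQ : Set (ℂ × ℂ)}
    {Q : ℂ × ℂ → ℂ} {OK : Set (ℂ × ℂ)} {K : ℂ × ℂ → ℂ} {OI : Set (ℂ × ℂ)} {Ki : ℂ × ℂ → ℂ}
    (D : Dat F OP P OQ Q OK K OI Ki) {B : ℝ} (hB : 0 < B) :
    ∃ r R k0 M, Rad F U OP P OQ OK K OI Ki B r R k0 M := by
  have t0 : (0:ℝ) ∈ Icc (0:ℝ) 1 := ⟨le_rfl, zero_le_one⟩
  have t1 : (1:ℝ) ∈ Icc (0:ℝ) 1 := ⟨zero_le_one, le_rfl⟩
  have b0 := band_Rg h B t0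
  have b1 := band_Rg h B t1
  -- the density
  have hOP : ∀ y ∈ Rg F U B 0, rc y ∈ OP := fun y hy => (D.hP.real_iff y).2 (Rg0_sub h hB hy)
  have hkc : ContinuousOn (kap P) OP := (an_kap D.hP.an).continuousOn
  obtain ⟨M1, R1, hR1, hs1, hb1⟩ := nbs_norm b0 D.hP.isOpen hOP D.hP.trans_mem hkc
    (fun z hz => kap_trans D.hP hz)
  have hkr : ∀ y ∈ Rg F U B 0, -(kap P (rc y)).re < 0 := by
    intro y hy
    have hy' := Rg0_sub h hB hy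
    have e2 : ((0 : ℂ), (1 : ℂ)) = rc (0, 1) := by ext <;> simp [rc]
    have h1 := fderiv_rc D.hP h.isOpen_Wd hy' (h.analytic_PR y hy').differentiableAt (0, 1)
    have h2 := dPR_pos h hy'
    unfold kap
    rw [e2, h1, Complex.ofReal_re]
    linarith
  obtain ⟨c', hc', R2, hR2, hs2, hb2⟩ := nbs_bound b0 D.hP.isOpen hOP D.hP.trans_mem
    (ψ := fun z => -(kap P z).re) (by fun_prop) (fun z hz => by rw [kap_trans D.hP hz]) hkr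
  set R := min R1 R2 with hR
  have hR0 : 0 < R := lt_min hR1 hR2
  -- outgoing velocity
  have hOK : ∀ y ∈ Rg F U B 1, rc y ∈ OK ∩ OQ := fun y hy =>
    ⟨(D.hK.real_iff y).2 (Rg1_sub h hB hy), (D.hQ.real_iff y).2 (Rg1_sub h hB hy)⟩
  have hcK : ContinuousOn (fun z : ℂ × ℂ => (z.1, K z)) (OK ∩ OQ) :=
    continuousOn_fst.prodMk (D.hK.an.continuousOn.mono inter_subset_left)
  have hopK : IsOpen (OK ∩ OQ) := D.hK.isOpen.inter D.hQ.isOpen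
  have hA1o : IsOpen ((OK ∩ OQ) ∩ (fun z : ℂ × ℂ => (z.1, K z)) ⁻¹' (nbs (Rg F U B 0) R ∩ OI)) :=
    hcK.isOpen_inter_preimage hopK ((isOpen_nbs _ _).inter D.hI.isOpen)
  have hA1t : ∀ z, z + (1, 0) ∈ ((OK ∩ OQ) ∩ (fun z : ℂ × ℂ => (z.1, K z)) ⁻¹'
      (nbs (Rg F U B 0) R ∩ OI)) ↔ z ∈ ((OK ∩ OQ) ∩ (fun z : ℂ × ℂ => (z.1, K z)) ⁻¹'
      (nbs (Rg F U B 0) R ∩ OI)) := by
    intro z
    have key : z ∈ OK → ((z + ((1 : ℂ), (0 : ℂ))).1, K (z + (1, 0))) = (z.1, K z) + (1, 0) := by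
      intro hz
      rw [map_trans0 D.hK hz]
      ext <;> simp
    constructor
    · rintro ⟨⟨a, b⟩, c, d⟩
      have a' := (D.hK.trans_mem z).1 a
      have c' : ((z + ((1 : ℂ), (0 : ℂ))).1, K (z + (1, 0))) ∈ nbs (Rg F U B 0) R := c
      have d' : ((z + ((1 : ℂ), (0 : ℂ))).1, K (z + (1, 0))) ∈ OI := d
      rw [key a'] at c' d'
      exact ⟨⟨a', (D.hQ.trans_mem z).1 b⟩, (nbs_trans b0 R _).1 c', (D.hI.trans_mem _).1 d'⟩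
    · rintro ⟨⟨a, b⟩, c, d⟩
      refine ⟨⟨(D.hK.trans_mem z).2 a, (D.hQ.trans_mem z).2 b⟩, ?_, ?_⟩
      · show ((z + ((1 : ℂ), (0 : ℂ))).1, K (z + (1, 0))) ∈ nbs (Rg F U B 0) R
        rw [key a]; exact (nbs_trans b0 R _).2 c
      · show ((z + ((1 : ℂ), (0 : ℂ))).1, K (z + (1, 0))) ∈ OI
        rw [key a]; exact (D.hI.trans_mem _).2 d
  obtain ⟨M2, r1, hr1, hs3, hb3⟩ := nbs_norm b1 hA1o (fun y hy => by
    refine ⟨hOK y hy, ?_⟩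
    have hy' := Rg1_sub h hB hy
    have e : ((rc y).1, K (rc y)) = rc (y.1, KR F y) := by
      rw [D.hK.real y hy']; rfl
    show ((rc y).1, K (rc y)) ∈ nbs (Rg F U B 0) R ∩ OI
    rw [e]
    exact ⟨rc_mem_nbs hR0 (KR_Rg h hB hy), (D.hI.real_iff _).2 (Rg0_sub h hB (KR_Rg h hB hy))⟩)
    hA1t (g := K) (D.hK.an.continuousOn.mono fun z hz => hz.1.1)
    (fun z hz => map_trans0 D.hK hz.1.1)
  -- incoming velocity
  have hOI : ∀ y ∈ Rg F U B 0, rc y ∈ OI := fun y hy =>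
    (D.hI.real_iff y).2 (Rg0_sub h hB hy)
  have hcI : ContinuousOn (fun z : ℂ × ℂ => (z.1, Ki z)) OI :=
    continuousOn_fst.prodMk D.hI.an.continuousOn
  have hA0o : IsOpen (OI ∩ (fun z : ℂ × ℂ => (z.1, Ki z)) ⁻¹' OK) :=
    hcI.isOpen_inter_preimage D.hI.isOpen D.hK.isOpen
  have hA0t : ∀ z, z + (1, 0) ∈ (OI ∩ (fun z : ℂ × ℂ => (z.1, Ki z)) ⁻¹' OK) ↔
      z ∈ (OI ∩ (fun z : ℂ × ℂ => (z.1, Ki z)) ⁻¹' OK) := by
    intro z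
    have key : z ∈ OI → ((z + ((1 : ℂ), (0 : ℂ))).1, Ki (z + (1, 0))) = (z.1, Ki z) + (1, 0) := by
      intro hz
      rw [map_trans0 D.hI hz]
      ext <;> simp
    constructor
    · rintro ⟨a, c⟩
      have a' := (D.hI.trans_mem z).1 a
      have c' : ((z + ((1 : ℂ), (0 : ℂ))).1, Ki (z + (1, 0))) ∈ OK := c
      rw [key a'] at c'
      exact ⟨a', (D.hK.trans_mem _).1 c'⟩
    · rintro ⟨a, c⟩
      refine ⟨(D.hI.trans_mem z).2 a, ?_⟩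
      show ((z + ((1 : ℂ), (0 : ℂ))).1, Ki (z + (1, 0))) ∈ OK
      rw [key a]; exact (D.hK.trans_mem _).2 c
  obtain ⟨M3, r0, hr0, hs4, hb4⟩ := nbs_norm b0 hA0o (fun y hy => by
    refine ⟨hOI y hy, ?_⟩
    have hy' := Rg0_sub h hB hy
    have e : ((rc y).1, Ki (rc y)) = rc (y.1, KIR F y) := by
      rw [D.hI.real y hy']; rfl
    show ((rc y).1, Ki (rc y)) ∈ OK
    rw [e]
    exact (D.hK.real_iff _).2 (Rg1_sub h hB (KIR_Rg h hB hy)))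
    hA0t (g := Ki) (D.hI.an.continuousOn.mono fun z hz => hz.1)
    (fun z hz => map_trans0 D.hI hz.1)
  refine ⟨min (min r1 r0) (R / 2), R, -c', max M1 (max M2 M3), ?_, ?_, ?_, ?_, ?_, ?_⟩
  · exact lt_min (lt_min hr1 hr0) (by linarith)
  · have := min_le_right (min r1 r0) (R / 2)
    linarith
  · linarith
  · intro z hz
    have z1 := nbs_mono _ (min_le_left R1 R2) hz
    have z2 := nbs_mono _ (min_le_right R1 R2) hz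
    refine ⟨hs1 z1, (hb1 z z1).trans (le_max_left _ _), ?_⟩
    have := hb2 z z2
    linarith
  · intro z hz
    have z1 := nbs_mono _ ((min_le_left (min r1 r0) (R / 2)).trans (min_le_left _ _)) hz
    have z2 := hs3 z1
    exact ⟨z2.1.1, z2.1.2, (hb3 z z1).trans ((le_max_left _ _).trans (le_max_right _ _)),
      z2.2.1, z2.2.2⟩
  · intro z hz
    have z1 := nbs_mono _ ((min_le_left (min r1 r0) (R / 2)).trans (min_le_right _ _)) hz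
    have z2 := hs4 z1
    exact ⟨z2.1, (hb4 z z1).trans ((le_max_right _ _).trans (le_max_right _ _)), z2.2⟩

end Pool.Agent.Helper37.FT
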