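import Pool.Agent.Helper37.FT.SysD

/-! # The system of a foliated twist map -/

set_option autoImplicit false

namespace Pool.Agent.Helper37.FT

open Set Filter Topology
open Pool.Agent.Helper76.FT Pool.Agent.Helper37.FTM

variable {F : ℝ × ℝ → ℝ × ℝ} {U : ℝ → ℝ → ℝ}

/-- the system -/
noncomputable def sys (F : ℝ × ℝ → ℝ × ℝ) (U : ℝ → ℝ → ℝ) (P K Ki : ℂ × ℂ → ℂ) (B r R : ℝ) :
    Sys where
  a := -B
  b := B
  r := r
  R := R
  V := VV F U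
  κ := fun x w => kap P (x, w)
  K := fun x w => K (x, w)
  Ki := fun x w => Ki (x, w)

section
variable {OP : Set (ℂ × ℂ)} {P : ℂ × ℂ → ℂ} {OQ : Set (ℂ × ℂ)} {Q : ℂ × ℂ → ℂ}
  {OK : Set (ℂ × ℂ)} {K : ℂ × ℂ → ℂ} {OI : Set (ℂ × ℂ)} {Ki : ℂ × ℂ → ℂ} {B r R k0 M : ℝ}

theorem Nb_eq (t ρ : ℝ) : (sys F U P K Ki B r R).Nb t ρ = nbs (Rg F U B t) ρ := rfl

variable (h : Fol0 F U) (D : Dat F OP P OQ Q OK K OI Ki) (hB : 0 < B)
  (rad : Rad F U OP P OQ OK K OI Ki B r R k0 M)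
  (hU0 : ∀ x : ℝ, U 0 x = 0) (hF0 : ∀ x : ℝ, F (x, 0) = (x, 0))

include h D hB rad hU0 hF0

theorem P_zero {z : ℂ × ℂ} (hz : z ∈ nbs (Rg F U B 0) R) : P (z.1, 0) = 0 := by
  have t0 : (0:ℝ) ∈ Icc (0:ℝ) 1 := ⟨le_rfl, zero_le_one⟩
  have hm : ∀ z ∈ nbs (Rg F U B 0) R, (z.1, (0 : ℂ)) ∈ OP := fun z hz => by
    have := (rad.P0 _ (nbs_seg h hU0 hF0 hB t0 t0 hz)).1
    simpa using this
  refine nbs_eqOn (f := fun z => P (z.1, 0)) (g := fun _ => 0) ?_ (differentiableOn_const _) ?_ hz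
  · exact D.hP.an.differentiableOn.comp (f := fun z : ℂ × ℂ => (z.1, (0 : ℂ)))
      (differentiable_fst.prodMk (differentiable_const _)).differentiableOn hm
  · intro q hq
    have h1 : rc (q.1, 0) ∈ OP := by
      have := hm _ hq
      simpa [rc] using this
    have h2 := D.hP.real _ ((D.hP.real_iff _).1 h1)
    rw [PR_zero h hF0] at h2
    simpa [rc] using h2

theorem Q_zero {z : ℂ × ℂ} (hz : z ∈ nbs (Rg F U B 1) r) : Q (z.1, 0) = 0 := by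
  have t0 : (0:ℝ) ∈ Icc (0:ℝ) 1 := ⟨le_rfl, zero_le_one⟩
  have t1 : (1:ℝ) ∈ Icc (0:ℝ) 1 := ⟨zero_le_one, le_rfl⟩
  have hm : ∀ z ∈ nbs (Rg F U B 1) r, (z.1, (0 : ℂ)) ∈ OQ := fun z hz => by
    have := (rad.K1 _ (nbs_seg h hU0 hF0 hB t0 t1 hz)).2.1
    simpa using this
  refine nbs_eqOn (f := fun z => Q (z.1, 0)) (g := fun _ => 0) ?_ (differentiableOn_const _) ?_ hz
  · exact D.hQ.an.differentiableOn.comp (f := fun z : ℂ × ℂ => (z.1, (0 : ℂ)))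
      (differentiable_fst.prodMk (differentiable_const _)).differentiableOn hm
  · intro q hq
    have h1 : rc (q.1, 0) ∈ OQ := by
      have := hm _ hq
      simpa [rc] using this
    have h2 := D.hQ.real _ ((D.hQ.real_iff _).1 h1)
    rw [QR_zero h hF0] at h2
    simpa [rc] using h2

theorem kap_Q {z : ℂ × ℂ} (hz : z ∈ nbs (Rg F U B 1) r) : kap Q z = kap P (z.1 - z.2, z.2) := by
  have t1 : (1:ℝ) ∈ Icc (0:ℝ) 1 := ⟨zero_le_one, le_rfl⟩
  have hm : ∀ z ∈ nbs (Rg F U B 1) r, (z.1 - z.2, z.2) ∈ OP := fun z hz => by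
    have := (rad.P0 _ (nbs_path h hU0 hF0 hB rad.hr rad.hrR t1 t1 hz)).1
    simpa using this
  have hl : Differentiable ℂ fun z : ℂ × ℂ => (z.1 - z.2, z.2) :=
    (differentiable_fst.sub differentiable_snd).prodMk differentiable_snd
  refine nbs_eqOn (f := kap Q) (g := fun z => kap P (z.1 - z.2, z.2)) ?_ ?_ ?_ hz
  · exact (an_kap D.hQ.an).differentiableOn.mono fun z hz => (rad.K1 z hz).2.1
  · exact (an_kap D.hP.an).differentiableOn.comp (f := fun z : ℂ × ℂ => (z.1 - z.2, z.2))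
      hl.differentiableOn hm
  · intro q hq
    have hq1 : q ∈ W1 F := (D.hQ.real_iff q).1 (rad.K1 _ hq).2.1
    have hq2 : (q.1 - q.2, q.2) ∈ Wd F := hq1
    have e2 : ((0 : ℂ), (1 : ℂ)) = rc (0, 1) := by ext <;> simp [rc]
    have e3 : ((rc q).1 - (rc q).2, (rc q).2) = rc (q.1 - q.2, q.2) := by
      ext <;> simp [rc]
    have h1 := fderiv_rc D.hP h.isOpen_Wd hq2 (h.analytic_PR _ hq2).differentiableAt (0, 1)
    have h2 := fderiv_rc D.hQ (isOpen_W1 h) hq1 (an_QR h _ hq1).differentiableAt (0, 1)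
    show fderiv ℂ Q (rc q) (0, 1) = fderiv ℂ P ((rc q).1 - (rc q).2, (rc q).2) (0, 1)
    rw [e3, e2, h1, h2, dQR h hq1]

theorem p0_eq {z : ℂ × ℂ} (hz : z ∈ nbs (Rg F U B 0) R) :
    (sys F U P K Ki B r R).p 0 z.1 z.2 = P z := by
  have t0 : (0:ℝ) ∈ Icc (0:ℝ) 1 := ⟨le_rfl, zero_le_one⟩
  have h1 := ftc_seg (f := P) (A := OP) D.hP.an (z := z) fun s hs =>
    (rad.P0 _ (nbs_seg h hU0 hF0 hB hs t0 hz)).1
  rw [P_zero h D hB rad hU0 hF0 hz, sub_zero] at h1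
  rw [← h1]
  show z.2 * ∫ s in (0:ℝ)..1, kap P (z.1 - ((0:ℝ):ℂ) * s * z.2, s * z.2) = _
  simp only [Complex.ofReal_zero, zero_mul, sub_zero]
  rfl

theorem p1_eq {z : ℂ × ℂ} (hz : z ∈ nbs (Rg F U B 1) r) :
    (sys F U P K Ki B r R).p 1 z.1 z.2 = Q z := by
  have t1 : (1:ℝ) ∈ Icc (0:ℝ) 1 := ⟨zero_le_one, le_rfl⟩
  have h1 := ftc_seg (f := Q) (A := OQ) D.hQ.an (z := z) fun s hs =>
    (rad.K1 _ (nbs_seg h hU0 hF0 hB hs t1 hz)).2.1
  rw [Q_zero h D hB rad hU0 hF0 hz, sub_zero] at h1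
  rw [← h1]
  show z.2 * ∫ s in (0:ℝ)..1, kap P (z.1 - ((1:ℝ):ℂ) * s * z.2, s * z.2) = _
  congr 1
  apply intervalIntegral.integral_congr
  intro s hs
  rw [uIcc_of_le zero_le_one] at hs
  have h2 := kap_Q h D hB rad hU0 hF0 (nbs_seg h hU0 hF0 hB hs t1 hz)
  simp only at h2
  simp only [Complex.ofReal_one, one_mul]
  rw [← h2]
  rfl

omit hU0 hF0 hB in
theorem KiK_eq {z : ℂ × ℂ} (hz : z ∈ nbs (Rg F U B 1) r) : Ki (z.1, K z) = z.2 := by
  have hl : DifferentiableOn ℂ (fun z : ℂ × ℂ => (z.1, K z)) (nbs (Rg F U B 1) r) :=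
    differentiableOn_fst.prodMk
      (D.hK.an.differentiableOn.mono fun z hz => (rad.K1 z hz).1)
  refine nbs_eqOn (f := fun z => Ki (z.1, K z)) (g := fun z => z.2) ?_ differentiableOn_snd ?_ hz
  · exact D.hI.an.differentiableOn.comp (f := fun z : ℂ × ℂ => (z.1, K z)) hl
      fun z hz => (rad.K1 z hz).2.2.2.2
  · intro q hq
    have hq1 : q ∈ W1 F := (D.hK.real_iff q).1 (rad.K1 _ hq).1
    have h1 := D.hI.real _ (KR_mem h (p := q))
    rw [KIR_KR h hq1] at h1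
    have e : ((rc q).1, K (rc q)) = rc (q.1, KR F q) := by
      rw [D.hK.real q hq1]; rfl
    show Ki ((rc q).1, K (rc q)) = (rc q).2
    rw [e, h1]; rfl

omit hU0 hF0 hB in
theorem KKi_eq {z : ℂ × ℂ} (hz : z ∈ nbs (Rg F U B 0) r) : K (z.1, Ki z) = z.2 := by
  have hl : DifferentiableOn ℂ (fun z : ℂ × ℂ => (z.1, Ki z)) (nbs (Rg F U B 0) r) :=
    differentiableOn_fst.prodMk
      (D.hI.an.differentiableOn.mono fun z hz => (rad.I0 z hz).1)
  refine nbs_eqOn (f := fun z => K (z.1, Ki z)) (g := fun z => z.2) ?_ differentiableOn_snd ?_ hz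
  · exact D.hK.an.differentiableOn.comp (f := fun z : ℂ × ℂ => (z.1, Ki z)) hl
      fun z hz => (rad.I0 z hz).2.2
  · intro q hq
    have hq1 : q ∈ Wd F := (D.hI.real_iff q).1 (rad.I0 _ hq).1
    obtain ⟨m1, -, m3⟩ := KIR_mem h hq1
    have h1 := D.hK.real (q.1, KIR F q) m1
    rw [m3] at h1
    have e : ((rc q).1, Ki (rc q)) = rc (q.1, KIR F q) := by
      rw [D.hI.real q hq1]; rfl
    show K ((rc q).1, Ki (rc q)) = (rc q).2
    rw [e, h1]; rfl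

omit hU0 hF0 hB in
theorem PK_eq {z : ℂ × ℂ} (hz : z ∈ nbs (Rg F U B 1) r) : P (z.1, K z) = Q z := by
  have hl : DifferentiableOn ℂ (fun z : ℂ × ℂ => (z.1, K z)) (nbs (Rg F U B 1) r) :=
    differentiableOn_fst.prodMk
      (D.hK.an.differentiableOn.mono fun z hz => (rad.K1 z hz).1)
  refine nbs_eqOn (f := fun z => P (z.1, K z)) (g := Q) ?_
    (D.hQ.an.differentiableOn.mono fun z hz => (rad.K1 z hz).2.1) ?_ hz
  · exact D.hP.an.differentiableOn.comp (f := fun z : ℂ × ℂ => (z.1, K z)) hl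
      fun z hz => (rad.P0 _ (rad.K1 z hz).2.2.2.1).1
  · intro q hq
    have hq1 : q ∈ W1 F := (D.hK.real_iff q).1 (rad.K1 _ hq).1
    have h1 := D.hP.real _ (KR_mem h (p := q))
    rw [PR_KR h] at h1
    have e : ((rc q).1, K (rc q)) = rc (q.1, KR F q) := by
      rw [D.hK.real q hq1]; rfl
    show P ((rc q).1, K (rc q)) = Q (rc q)
    rw [e, h1, D.hQ.real q hq1]

end

end Pool.Agent.Helper37.FT
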