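import Pool.Agent.Helper37.FT.SysE

/-! # Part S: the system of a foliated twist map has all the required properties -/

set_option autoImplicit false

namespace Pool.Agent.Helper37.FT

open Set Filter Topology
open Pool.Agent.Helper76.FT Pool.Agent.Helper37.FTM

variable {F : ℝ × ℝ → ℝ × ℝ} {U : ℝ → ℝ → ℝ}

section
variable {OP : Set (ℂ × ℂ)} {P : ℂ × ℂ → ℂ} {OQ : Set (ℂ × ℂ)} {Q : ℂ × ℂ → ℂ}
  {OK : Set (ℂ × ℂ)} {K : ℂ × ℂ → ℂ} {OI : Set (ℂ × ℂ)} {Ki : ℂ × ℂ → ℂ} {B r R k0 M : ℝ}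

variable (h : Fol0 F U)
include h

theorem g_eq (Y : ℝ) : (sys F U P K Ki B r R).g Y = ff F U Y := by
  funext x
  show x + VV F U Y x 0 = ff F U Y x
  rw [(vok h).zero]; ring

theorem gi_eq (Y : ℝ) : (sys F U P K Ki B r R).gi Y = fun x => x - VV F U Y x 1 := rfl

theorem g_gi (Y x : ℝ) :
    (sys F U P K Ki B r R).g Y ((sys F U P K Ki B r R).gi Y x) = x := by
  rw [g_eq h, gi_eq h]; exact ff_sub h Y x

theorem orb_succ (Y x : ℝ) (n : ℤ) : (sys F U P K Ki B r R).orb Y x (n + 1) =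
    ff F U Y ((sys F U P K Ki B r R).orb Y x n) := by
  rw [← g_eq h (P := P) (K := K) (Ki := Ki) (B := B) (r := r) (R := R)]
  set S := sys F U P K Ki B r R with hS
  match n with
  | Int.ofNat n =>
    show (S.g Y)^[n + 1] x = S.g Y ((S.g Y)^[n] x)
    rw [Function.iterate_succ_apply']
  | Int.negSucc 0 =>
    show x = S.g Y (S.gi Y x)
    exact (g_gi h Y x).symm
  | Int.negSucc (k + 1) =>
    show (S.gi Y)^[k + 1] x = S.g Y ((S.gi Y)^[k + 1 + 1] x)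
    rw [Function.iterate_succ_apply' _ (k + 1)]
    exact (g_gi h Y _).symm

theorem vel_eq (Y x : ℝ) (n : ℤ) : (sys F U P K Ki B r R).vel Y x n =
    (sys F U P K Ki B r R).orb Y x (n + 1) - (sys F U P K Ki B r R).orb Y x n := by
  rw [orb_succ h]
  show VV F U Y ((sys F U P K Ki B r R).orb Y x n) 0 = _
  rw [(vok h).zero]

theorem vel_one (Y x : ℝ) (n : ℤ) :
    VV F U Y ((sys F U P K Ki B r R).orb Y x (n + 1)) 1 = (sys F U P K Ki B r R).vel Y x n := by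
  rw [orb_succ h, (vok h).one]
  show _ = VV F U Y ((sys F U P K Ki B r R).orb Y x n) 0
  rw [(vok h).zero]

/-- partial derivatives of `K` at the incoming real points -/
theorem dK_fst (D : Dat F OP P OQ Q OK K OI Ki) {p : ℝ × ℝ} (hp : p ∈ W1 F) :
    deriv (fun q => K (q, (p.2 : ℂ))) (p.1 : ℂ) = ((fderiv ℝ (KR F) p (1, 0) : ℝ) : ℂ) := by
  have h1 := fderiv_rc D.hK (isOpen_W1 h) hp (an_KR h p hp).differentiableAt (1, 0)
  rw [← h1]
  have hd : HasFDerivAt K (fderiv ℂ K (rc p)) (rc p) :=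
    (D.hK.an _ ((D.hK.real_iff p).2 hp)).differentiableAt.hasFDerivAt
  have h2 : HasDerivAt (fun q : ℂ => K (q, (p.2 : ℂ))) (fderiv ℂ K (rc p) (1, 0)) (p.1 : ℂ) :=
    hd.comp_hasDerivAt (p.1 : ℂ) ((hasDerivAt_id _).prodMk (hasDerivAt_const _ _))
  rw [h2.deriv]
  congr 1

theorem dK_snd (D : Dat F OP P OQ Q OK K OI Ki) {p : ℝ × ℝ} (hp : p ∈ W1 F) :
    deriv (fun w => K ((p.1 : ℂ), w)) (p.2 : ℂ) = ((fderiv ℝ (KR F) p (0, 1) : ℝ) : ℂ) := by
  have h1 := fderiv_rc D.hK (isOpen_W1 h) hp (an_KR h p hp).differentiableAt (0, 1)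
  rw [← h1]
  have hd : HasFDerivAt K (fderiv ℂ K (rc p)) (rc p) :=
    (D.hK.an _ ((D.hK.real_iff p).2 hp)).differentiableAt.hasFDerivAt
  have h2 : HasDerivAt (fun w : ℂ => K ((p.1 : ℂ), w)) (fderiv ℂ K (rc p) (0, 1)) (p.2 : ℂ) :=
    hd.comp_hasDerivAt (p.2 : ℂ) ((hasDerivAt_const _ _).prodMk (hasDerivAt_id _))
  rw [h2.deriv]
  congr 1

theorem sys_disc (D : Dat F OP P OQ Q OK K OI Ki) (hB : 0 < B) {Y : ℝ} (x : ℝ)
    (ξ η : ℤ → ℝ) (hJ : (sys F U P K Ki B r R).Jac Y x ξ η) (h0 : ξ 0 ≤ 0) (h1 : 0 ≤ ξ 1)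
    (hne : ¬ (ξ 0 = 0 ∧ ξ 1 = 0)) :
    (∀ n : ℤ, 2 ≤ n → 0 < ξ n) ∧ (∀ n : ℤ, n ≤ -1 → ξ n < 0) := by
  set S := sys F U P K Ki B r R with hS
  have hsum : ∀ n, S.orb Y x n + S.vel Y x n = S.orb Y x (n + 1) := fun n => by
    rw [hS, vel_eq h]; ring
  have hW1 : ∀ n, (S.orb Y x (n + 1), S.vel Y x n) ∈ W1 F := fun n => by
    have := (KR_leaf h Y (S.orb Y x (n + 1))).1
    rw [vel_one h] at this
    exact this
  refine disc_vel h (fun n => (S.orb Y x n, S.vel Y x n)) (fun n => (leaf_mem h Y _).1) ?_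
    ξ η hJ.pos ?_ h0 h1 hne
  · intro n
    simp only [hsum]
    have := (KR_leaf h Y (S.orb Y x (n + 1))).2.2
    rw [vel_one h] at this
    rw [this]
    rfl
  · intro n
    simp only [hsum]
    have h2 := hJ.kick n
    have h3 := dK_fst h D (hW1 n)
    have h4 := dK_snd h D (hW1 n)
    simp only at h3 h4
    have h5 : (η (n + 1) : ℂ) =
        ((fderiv ℝ (KR F) (S.orb Y x (n + 1), S.vel Y x n) (1, 0) : ℝ) : ℂ) * (ξ (n + 1) : ℂ) +
        ((fderiv ℝ (KR F) (S.orb Y x (n + 1), S.vel Y x n) (0, 1) : ℝ) : ℂ) * (η n : ℂ) := by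
      rw [← h3, ← h4]; exact h2
    have h6 : η (n + 1) = fderiv ℝ (KR F) (S.orb Y x (n + 1), S.vel Y x n) (1, 0) * ξ (n + 1) +
        fderiv ℝ (KR F) (S.orb Y x (n + 1), S.vel Y x n) (0, 1) * η n := by
      exact_mod_cast h5
    rw [h6]
    have e : (ξ (n + 1), η n) = ξ (n + 1) • ((1 : ℝ), (0 : ℝ)) + η n • ((0 : ℝ), (1 : ℝ)) := by
      ext <;> simp
    rw [e, map_add, map_smul, map_smul, smul_eq_mul, smul_eq_mul]
    ring

theorem sys_div {Y Y' : ℝ} (hY : Y < Y') (x x' C : ℝ) :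
    (∃ n : ℕ, ((sys F U P K Ki B r R).g Y)^[n] x + C < ((sys F U P K Ki B r R).g Y')^[n] x') ∧
    (∃ n : ℕ, ((sys F U P K Ki B r R).gi Y')^[n] x' + C <
      ((sys F U P K Ki B r R).gi Y)^[n] x) := by
  rw [g_eq h, g_eq h, gi_eq h, gi_eq h]
  refine ⟨h.exists_div hY x x' C, ?_⟩
  obtain ⟨N, hN⟩ := h.div_backward hY (|x' - x| + |C|)
  refine ⟨N, ?_⟩
  have := hN N le_rfl ((fun x => x - VV F U Y x 1)^[N] x) ((fun x => x - VV F U Y' x 1)^[N] x')
    (by rw [iter_ff_sub h, iter_ff_sub h]; linarith [abs_nonneg C])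
  linarith [le_abs_self C, abs_nonneg (x' - x)]

theorem sys_per (Y : ℝ) :
    ((∃ (N : ℕ) (m : ℤ), ∀ x : ℝ, ((sys F U P K Ki B r R).g Y)^[N + 1] x = x + m) ∧
      AnalyticOnNhd ℝ (fun x : ℝ => (sys F U P K Ki B r R).V Y x 0) univ) ∨
    (∀ (n : ℕ) (k : ℤ) (x : ℝ), ((sys F U P K Ki B r R).g Y)^[n + 1] x ≠ x + k) := by
  rw [g_eq h]
  by_cases hc : ∃ (n : ℕ) (k : ℤ) (x : ℝ), (ff F U Y)^[n + 1] x = x + k
  · left
    obtain ⟨n, k, x0, hx0⟩ := hc
    have hp := h.periodic_leaf hx0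
    refine ⟨⟨n, k, hp⟩, ?_⟩
    have ha := h.analytic_of_periodic hp
    have e : (fun x : ℝ => (sys F U P K Ki B r R).V Y x 0) = fun x => (F (x, U Y x)).1 - x := by
      funext x
      show VV F U Y x 0 = _
      rw [(vok h).zero]; rfl
    rw [e]
    intro x _
    have h1 : AnalyticAt ℝ (fun x => F (x, U Y x)) x :=
      (h.an _ (mem_univ _)).comp_of_eq (analyticAt_id.prod (ha x (mem_univ x))) rfl
    exact (analyticAt_fst.comp_of_eq h1 rfl).sub analyticAt_id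
  · right
    push Not at hc
    exact hc

end

theorem sys_ok (h : Fol0 F U) (hU0 : ∀ x : ℝ, U 0 x = 0) (hF0 : ∀ x : ℝ, F (x, 0) = (x, 0))
    {OP : Set (ℂ × ℂ)} {P : ℂ × ℂ → ℂ} {OQ : Set (ℂ × ℂ)} {Q : ℂ × ℂ → ℂ}
    {OK : Set (ℂ × ℂ)} {K : ℂ × ℂ → ℂ} {OI : Set (ℂ × ℂ)} {Ki : ℂ × ℂ → ℂ} {B r R k0 M : ℝ}
    (D : Dat F OP P OQ Q OK K OI Ki) (hB : 0 < B)
    (rad : Rad F U OP P OQ OK K OI Ki B r R k0 M) : (sys F U P K Ki B r R).Ok := by
  have t0 : (0:ℝ) ∈ Icc (0:ℝ) 1 := ⟨le_rfl, zero_le_one⟩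
  have t1 : (1:ℝ) ∈ Icc (0:ℝ) 1 := ⟨zero_le_one, le_rfl⟩
  have hv := vok h
  have hr := rad.hr
  have hrR : r ≤ R := by linarith [rad.hrR]
  have hid : ∀ z : ℂ × ℂ, ((z.1, z.2) : ℂ × ℂ) = z := fun z => rfl
  refine
    { ha := by show -B < 0; linarith
      hb := hB
      hr := hr
      hR := hrR
      Vcont := hv.cont.mono (prod_mono (subset_univ _) subset_rfl)
      Vper := fun Y _ q t ht => hv.per Y q t ht
      Vmono := fun Y _ Y' _ hYY q t ht => hv.mono Y Y' hYY q t ht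
      Vzero := fun q t _ => VV_zero hU0 hF0 q t
      Vline := fun Y _ q s hs t ht => hv.line Y q s hs t ht
      path := fun t ht z hz s hs => nbs_path h hU0 hF0 hB hr rad.hrR hs ht hz
      κhol := ?_
      κbd := ⟨M, fun z hz => (rad.P0 z hz).2.1⟩
      κper := ?_
      κsym := ?_
      κpos := ⟨k0, rad.hk0, fun z hz => (rad.P0 z hz).2.2⟩
      Khol := ?_
      Kihol := ?_
      Kbd := ⟨M, fun z hz => (rad.K1 z hz).2.2.1, fun z hz => (rad.I0 z hz).2.1⟩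
      Kper := ?_
      Kiper := ?_
      Ksym := ?_
      Kisym := ?_
      KV := ?_
      KiV := ?_
      KiK := fun z hz => KiK_eq h D rad hz
      KKi := fun z hz => KKi_eq h D rad hz
      kick := ?_
      disc := fun Y _ x ξ η hJ h0 h1 hne => sys_disc h D hB x ξ η hJ h0 h1 hne
      div := fun Y _ Y' _ hYY x x' C => sys_div h hYY x x' C
      per := fun Y _ => sys_per h Y }
  · exact (an_kap D.hP.an).differentiableOn.mono fun z hz => (rad.P0 z hz).1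
  · intro z hz
    have h1 := kap_trans D.hP (rad.P0 z hz).1
    have e : z + ((1 : ℂ), (0 : ℂ)) = (z.1 + 1, z.2) := by ext <;> simp
    rw [e] at h1
    exact h1
  · intro z hz
    exact kap_conj D.hP (rad.P0 z hz).1
  · exact D.hK.an.differentiableOn.mono fun z hz => (rad.K1 z hz).1
  · exact D.hI.an.differentiableOn.mono fun z hz => (rad.I0 z hz).1
  · intro z hz
    have h1 := map_trans0 D.hK (rad.K1 z hz).1
    have e : z + ((1 : ℂ), (0 : ℂ)) = (z.1 + 1, z.2) := by ext <;> simp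
    rw [e] at h1
    exact h1
  · intro z hz
    have h1 := map_trans0 D.hI (rad.I0 z hz).1
    have e : z + ((1 : ℂ), (0 : ℂ)) = (z.1 + 1, z.2) := by ext <;> simp
    rw [e] at h1
    exact h1
  · intro z hz
    exact D.hK.map_conj z (rad.K1 z hz).1
  · intro z hz
    exact D.hI.map_conj z (rad.I0 z hz).1
  · intro Y hY q
    have h1 := KR_leaf h Y q
    have h2 := D.hK.real (q, VV F U Y q 1) h1.1
    rw [h1.2.2] at h2
    exact h2
  · intro Y hY q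
    have h1 := KIR_leaf h Y q
    have h2 := D.hI.real (q, VV F U Y q 0) (leaf_mem h Y q).1
    rw [h1] at h2
    exact h2
  · intro z hz
    show (sys F U P K Ki B r R).p 0 z.1 (K z) = (sys F U P K Ki B r R).p 1 z.1 z.2
    have h1 := p0_eq h D hB rad hU0 hF0 (rad.K1 z hz).2.2.2.1
    simp only at h1
    rw [h1, p1_eq h D hB rad hU0 hF0 hz]
    exact PK_eq h D rad hz

/-- **Part S** -/
theorem ft_sys : GSys := by
  intro F U h hU0 hF0 B hB
  obtain ⟨OP, P, OQ, Q, OK, K, OI, Ki, D⟩ := exists_dat h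
  obtain ⟨r, R, k0, M, rad⟩ := exists_rad h D hB
  refine ⟨sys F U P K Ki B r R, sys_ok h hU0 hF0 D hB rad, rfl, rfl, ?_⟩
  intro Y hY x
  have t0 : (0:ℝ) ∈ Icc (0:ℝ) 1 := ⟨le_rfl, zero_le_one⟩
  have hR0 : 0 < R := by linarith [rad.hr, rad.hrR]
  have h1 := p0_eq h D hB rad hU0 hF0 (rc_mem_nbs hR0 (leaf_Rg h hY x t0))
  have h2 := D.hP.real (x, VV F U Y x 0) (leaf_mem h Y x).1
  rw [(leaf_mem h Y x).2] at h2
  show ((sys F U P K Ki B r R).p 0 (x : ℂ) (VV F U Y x 0 : ℂ)).re = U Y x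
  have h3 : (sys F U P K Ki B r R).p 0 (x : ℂ) (VV F U Y x 0 : ℂ) = ((U Y x : ℝ) : ℂ) :=
    h1.trans h2
  rw [h3, Complex.ofReal_re]

end Pool.Agent.Helper37.FT
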